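import Pool.Agent.Helper88_SO.Defs
import Pool.Agent.Common_CookLevin.CookLevin

/-!
# Definitions used in the proof that SINGLE-OBSTACLE is NP-hard
-/

namespace Pool.Agent.SO

/-! ## Orientation, visibility -/

/-- orientation of three points -/
def ori (p q r : Pt) : ℝ := (q.1 - p.1) * (r.2 - p.2) - (q.2 - p.2) * (r.1 - p.1)

/-- `p` sees `q` -/
def Sees (C : Set Pt) (p q : Pt) : Prop := segment ℝ p q ∩ C = ∅

/-- The segments `p q` and `r s` cross. -/
def Cross (p q r s : Pt) : Prop := ori p q r * ori p q s < 0 ∧ ori r s p * ori r s q < 0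

/-- connected set not contained in a convex set -/
structure Amb (C K : Set Pt) : Prop where
  conn : IsPreconnected C
  conv : Convex ℝ K
  nsub : ¬ C ⊆ K

/-- a representation whose obstacle is not contained in the convex hull of the points -/
structure Rep (C : Set Pt) {V : Type} (G : SimpleGraph V) (P : V → Pt) : Prop where
  conn : IsPreconnected C
  nsub : ¬ C ⊆ convexHull ℝ (Set.range P)
  rep : Represents C G P

/-- no point of `Q` lies inside a triangle of points of `Q` -/
def CP {V : Type} (P : V → Pt) (Q : Set V) : Prop :=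
  ∀ x ∈ Q, ∀ y ∈ Q, ∀ z ∈ Q, ∀ w ∈ Q,
    ¬ (0 < ori (P x) (P y) (P w) ∧ 0 < ori (P y) (P z) (P w) ∧ 0 < ori (P z) (P x) (P w))

/-! ## Witness rays -/

/-- the affine function with coefficients `c` -/
def aff (c : ℝ × ℝ × ℝ) (p : Pt) : ℝ := c.1 + c.2.1 * p.1 + c.2.2 * p.2

/-- a point of the segment `P u, P v` with a ray avoiding all edges of the drawing -/
def Wit {V : Type} (G : SimpleGraph V) (P : V → Pt) (u v : V) : Prop :=
  ∃ w ∈ segment ℝ (P u) (P v), ∃ d : Pt, d ≠ 0 ∧
    ∀ t : ℝ, 0 ≤ t → ∀ x y, G.Adj x y → w + t • d ∉ segment ℝ (P x) (P y)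

/-- every non-adjacent pair has a witness ray -/
def WeakRep {V : Type} (G : SimpleGraph V) (P : V → Pt) : Prop :=
  ∀ u v, u ≠ v → ¬ G.Adj u v → Wit G P u v

/-- certificate for the ray starting in `P b` and leading away from `P n` -/
def Exposed {V : Type} (G : SimpleGraph V) (P : V → Pt) (b n : V) : Prop :=
  G.Adj b n ∧ P b ≠ P n ∧ ∀ x y, G.Adj x y → x ≠ b → y ≠ b →
    ∃ c, 0 < aff c (P b) ∧ aff c (P n) ≤ aff c (P b) ∧ aff c (P x) ≤ 0 ∧ aff c (P y) ≤ 0

/-- certificate for `P v` being outside of the cone of the neighbours of `b` -/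
def OutCone {V : Type} (G : SimpleGraph V) (P : V → Pt) (b v : V) : Prop :=
  ∃ c, aff c (P b) = 0 ∧ 0 < aff c (P v) ∧ ∀ x, G.Adj b x → aff c (P x) ≤ 0

/-- the open ray from `o` in direction `d` avoids the drawing -/
def FreeRay {V : Type} (G : SimpleGraph V) (P : V → Pt) (o d : Pt) : Prop :=
  d ≠ 0 ∧ ∀ t : ℝ, 0 < t → ∀ x y, G.Adj x y → o + t • d ∉ segment ℝ (P x) (P y)

/-- the segment from `g` to `z` crosses the open ray from `o` in direction `d` -/
def CrossRay (g z o d : Pt) : Prop :=
  (d.1 * (g.2 - o.2) - d.2 * (g.1 - o.1) < 0 ∧ 0 < d.1 * (z.2 - o.2) - d.2 * (z.1 - o.1) ∧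
    0 < ori g z o) ∨
  (0 < d.1 * (g.2 - o.2) - d.2 * (g.1 - o.1) ∧ d.1 * (z.2 - o.2) - d.2 * (z.1 - o.1) < 0 ∧
    ori g z o < 0)

/-! ## The drawing -/

/-- slope scale -/
noncomputable def muP (m : ℕ) : ℝ := 1 / (200 * m)
/-- size of the region of the helpers of a door -/
noncomputable def sgP (m : ℕ) : ℝ := 1 / (10000 * m ^ 2)
/-- lower bound for the differences of the slopes -/
noncomputable def gamP (n : ℕ) : ℝ := 7 / (10 * (n + 1))
/-- width of a door -/
noncomputable def wdP (n m : ℕ) : ℝ := sgP m / 100 * gamP n / 20000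

/-- the point `(u, v)` in the frame of the door at `D` -/
noncomputable def fr (D wd u v : ℝ) : Pt := (D + u, D ^ 2 / 100 + wd ^ 2 / 400 + D * u / 50 + v)

/-- the coordinates in the frame of the door at `D` -/
noncomputable def loc (D wd : ℝ) (p : Pt) : Pt :=
  (p.1 - D, p.2 - D ^ 2 / 100 - wd ^ 2 / 400 - D * (p.1 - D) / 50)

/-- the point below the door with slope `s` and depth parameter `y` -/
noncomputable def piP (rho s y : ℝ) : Pt := (-(rho * s / y), -(rho / y))

/-- slope of the line from the centre of the door at `D` to the top point with abscissa `x` -/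
noncomputable def slope (D wd x : ℝ) : ℝ :=
  (x - D) / (1 - x ^ 2 / 100 - D ^ 2 / 100 - wd ^ 2 / 400 - D * (x - D) / 50)

/-- slope parameter of the helper `hc` -/
noncomputable def aC (s : ℝ) : ℝ := -(27 / 10) + s / 10

/-- the index of the second element of a pair of adjacent elements -/
def kk (t : Bool) : Fin 5 := if t then 2 else 0

/-- coordinates of the own vertices of a door in its frame (`S` = slope of a top vertex) -/
noncomputable def own {n m : ℕ} (T : Fin m → Fin 3 → Fin n) (j : Fin m) (gam sg mu : ℝ)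
    (S : Fin (n + 2) → ℝ) : Vx n m → Pt
  | .jam _ false => (-(sg / 100 * gam / 20000 / 2), 0)
  | .jam _ true => (sg / 100 * gam / 20000 / 2, 0)
  | .hj _ false => (-(2 * sg), mu * sg)
  | .hj _ true => (-sg, -(sg / 4))
  | .pr _ k => piP (sg / 100) (S (el T j k)) (100 + S (el T j k) ^ 2)
  | .hc _ k => piP (sg / 100) (aC (S (el T j k)))
      (100 - S (el T j k) ^ 2 + 2 * S (el T j k) * aC (S (el T j k)))
  | .hd _ true => piP (sg / 100) (-2) 50
  | .hd _ false => piP (sg / 100) 2 50
  | .ho _ false t => piP (sg / 100) (min (S (el T j (kk t))) (S (el T j 1)) - gam / 2) 1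
  | .ho _ true t => piP (sg / 100) (max (S (el T j (kk t))) (S (el T j 1)) + gam / 2) 1
  | _ => 0

/-- the door of a vertex -/
def dr {n m : ℕ} : Vx n m → Option (Fin m)
  | .top _ => none
  | .hel _ => none
  | .jam j _ => some j
  | .hj j _ => some j
  | .pr j _ => some j
  | .hc j _ => some j
  | .hd j _ => some j
  | .ho j _ _ => some j

/-- the placement given by the positions `ps i` of the elements -/
noncomputable def pl {n m : ℕ} (T : Fin m → Fin 3 → Fin n) (ps : Fin (n + 2) → ℕ) (z : Vx n m) :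
    Pt :=
  match z with
  | .top i => ((ps i : ℝ) / (n + 1), 1 - ((ps i : ℝ) / (n + 1)) ^ 2 / 100)
  | .hel i => (-10, 1 + ((ps i : ℝ) / (n + 1)) ^ 2 / 100 + ((ps i : ℝ) / (n + 1)) / 5)
  | z => match dr z with
    | none => 0
    | some j =>
      let p := own T j (gamP n) (sgP m) (muP m)
        (fun i => slope ((j.val : ℝ) / m) (wdP n m) ((ps i : ℝ) / (n + 1))) z
      fr ((j.val : ℝ) / m) (wdP n m) p.1 p.2

/-- Positions of the elements: the elements `0, …, n - 1` have the positions `0, …, n - 1` in some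
order, in which the middle element of every triple is between the two others; the additional
elements have the positions `n` and `n + 1`. -/
structure Good {n m : ℕ} (T : Fin m → Fin 3 → Fin n) (ps : Fin (n + 2) → ℕ) : Prop where
  inj : Function.Injective ps
  lt : ∀ i : Fin (n + 2), i.val < n → ps i < n
  inf : ∀ i : Fin (n + 2), i.val = n → ps i = n
  last : ∀ i : Fin (n + 2), i.val = n + 1 → ps i = n + 1
  mid : ∀ j, (ps (el T j 0) < ps (el T j 1) ∧ ps (el T j 1) < ps (el T j 2)) ∨
    (ps (el T j 2) < ps (el T j 1) ∧ ps (el T j 1) < ps (el T j 0))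

/-- The drawing in the frame of the door `j`. -/
structure View {n m : ℕ} (T : Fin m → Fin 3 → Fin n) (j : Fin m) (gam sg mu : ℝ)
    (S : Fin (n + 2) → ℝ) (Q : Vx n m → Pt) : Prop where
  gam_pos : 0 < gam
  gam_le : gam ≤ 7 / 20
  sg_pos : 0 < sg
  sg_le : sg ≤ 1 / 10000
  mu_pos : 0 < mu
  mu_le : mu ≤ 1 / 200
  S_abs : ∀ i, |S i| ≤ 11 / 10
  S_gap : ∀ i i', i ≠ i' → gam ≤ |S i - S i'|
  S_mid : (S (el T j 0) < S (el T j 1) ∧ S (el T j 1) < S (el T j 2)) ∨
    (S (el T j 2) < S (el T j 1) ∧ S (el T j 1) < S (el T j 0))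
  S_big : ∀ k : Fin 5, k.val < 3 → S (el T j k) < S (el T j 3)
  S_last : S (el T j 3) < S (el T j 4)
  top_u : ∀ i, |(Q (.top i)).1| ≤ 1
  top_v : ∀ i, 24 / 25 ≤ (Q (.top i)).2 ∧ (Q (.top i)).2 ≤ 51 / 50
  top_S : ∀ i, (Q (.top i)).1 = S i * (Q (.top i)).2
  last_u : 0 ≤ (Q (.top (Fin.last (n + 1)))).1
  hel_u : ∀ i, -11 ≤ (Q (.hel i)).1 ∧ (Q (.hel i)).1 ≤ -10
  hel_v : ∀ i, 49 / 50 ≤ (Q (.hel i)).2 ∧ (Q (.hel i)).2 ≤ 3 / 2
  own : ∀ z, dr z = some j → Q z = own T j gam sg mu S z
  far_v : ∀ z j', dr z = some j' → j' ≠ j → 0 < (Q z).2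
  far_50 : ∀ z j', dr z = some j' → j' ≠ j → 50 * (Q z).2 ≤ |(Q z).1|
  far_mu : ∀ z j', dr z = some j' → j' ≠ j → mu * |(Q z).1| ≤ (Q z).2
  far_u : ∀ z j', dr z = some j' → j' ≠ j → 1000 * sg ≤ |(Q z).1| ∧ |(Q z).1| ≤ 2
  far_r : ∀ z j', dr z = some j' → j < j' → 0 < (Q z).1
  far_l : ∀ z j', dr z = some j' → j' < j → (Q z).1 < 0

/-- the vertices in the region below a door -/
def Gad {n m : ℕ} (j : Fin m) : Vx n m → Prop
  | .pr j' _ => j' = j
  | .hc j' _ => j' = j
  | .hd j' _ => j' = j
  | .ho j' _ _ => j' = j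
  | _ => False

/-! ## The decision problem -/

/-- letters for adjacency matrices -/
inductive GLetter
  | row | one | zero
  deriving DecidableEq, Fintype

open Classical in
/-- The adjacency matrix of a graph on `{0, …, N - 1}`, row by row: for each vertex `i` the letter
`row` followed by the `N` bits `[i ~ 0], …, [i ~ N - 1]`. -/
noncomputable def encGraph (x : Σ N : ℕ, SimpleGraph (Fin N)) : List GLetter :=
  (List.finRange x.1).flatMap fun i =>
    .row :: (List.finRange x.1).map fun k => if x.2.Adj i k then .one else .zero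

/-! ## From formulas to betweenness instances -/

open Pool.Agent.Common_CookLevin (CNFLetter CNF encodeCNF)

/-- triples of a letter of the reversed formula of length `M`; `p` letters came before, the last
`k` of them are ticks. The smallest element is `3 * M + 2`. -/
def letterT (M p k : ℕ) : CNFLetter → List (ℕ × ℕ × ℕ)
  | .tick => [(3 * M + 2, 2 * M + p, 2 * M + p + 1), (3 * M + 2, 2 * M + p, 2 * M + p + 1)]
  | .pos => [(k, 5 * M + 4 + p, 2 * M + p + 1), (3 * M + 2, 2 * M + p, 5 * M + 4 + p)]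
  | .neg => [(M + k, 5 * M + 4 + p, 2 * M + p + 1), (3 * M + 2, 2 * M + p, 5 * M + 4 + p)]
  | .clause => [(3 * M + 2, 2 * M + p, 3 * M + 1), (3 * M + 2, 3 * M + 1, 2 * M + p + 1)]

/-- triples of a final part of the reversed formula -/
def wordT (M : ℕ) : ℕ → ℕ → List CNFLetter → List (ℕ × ℕ × ℕ)
  | _, _, [] => []
  | p, k, c :: u => letterT M p k c ++ wordT M (p + 1) (if c = .tick then k + 1 else 0) u

/-- all triples for the reversed formula `u` -/
def triples (u : List CNFLetter) : List (ℕ × ℕ × ℕ) :=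
  (List.range (3 * u.length + 2)).map (fun e => (3 * u.length + 2, e, 3 * u.length + 3)) ++
    ((3 * u.length + 2, 3 * u.length + 1, 2 * u.length) ::
      ((List.range u.length).flatMap (fun v =>
        [(v, 3 * u.length + 4 + v, u.length + v),
          (3 * u.length + 2, 3 * u.length + 4 + v, 3 * u.length + 1),
          (v, 4 * u.length + 4 + v, u.length + v),
          (3 * u.length + 2, 3 * u.length + 1, 4 * u.length + 4 + v)]) ++
      wordT u.length 0 0 u))

/-- the betweenness instance of a list of triples -/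
def instOf (n : ℕ) (ts : List (ℕ × ℕ × ℕ)) (j : Fin ts.length) (k : Fin 3) : Fin (n + 1) :=
  Fin.ofNat (n + 1) (if k = 0 then (ts.get j).1 else if k = 1 then (ts.get j).2.1
    else (ts.get j).2.2)

/-- the betweenness instance of a formula -/
def instF (F : CNF) : Fin (triples (encodeCNF F).reverse).length → Fin 3 →
    Fin (6 * (encodeCNF F).length + 3 + 1) :=
  instOf (6 * (encodeCNF F).length + 3) (triples (encodeCNF F).reverse)

end Pool.Agent.SO
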