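import Pool.Agent.Helper88_SO.Stmts

/-!
# Basic lemmas for the modules
-/

namespace Pool.Agent.SO

/-! ## Orientation -/

theorem ori_cyc (p q r : Pt) : ori q r p = ori p q r := by unfold ori; ring

theorem ori_swap (p q r : Pt) : ori p r q = -ori p q r := by unfold ori; ring

theorem ori_self1 (p q : Pt) : ori p p q = 0 := by unfold ori; ring
theorem ori_self2 (p q : Pt) : ori p q q = 0 := by unfold ori; ring
theorem ori_self3 (p q : Pt) : ori p q p = 0 := by unfold ori; ring

/-- three-term Grassmann-Plücker relation for four points -/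
theorem ori_four (p q r s : Pt) : ori p q r - ori p q s + ori p r s - ori q r s = 0 := by
  unfold ori; ring

/-- Grassmann-Plücker relation for vectors at `b` -/
theorem ori_gp (b w x y z : Pt) :
    ori b w x * ori b y z - ori b w y * ori b x z + ori b w z * ori b x y = 0 := by
  unfold ori; ring

/-- `w` is a combination of `x, y, z`; applied to the affine function `ori b c` -/
theorem ori_comb (b c x y z w : Pt) :
    ori y z w * ori b c x + ori z x w * ori b c y + ori x y w * ori b c z =
      ori x y z * ori b c w := by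
  unfold ori; ring

theorem ori_sum (x y z w : Pt) : ori y z w + ori z x w + ori x y w = ori x y z := by
  unfold ori; ring

/-- `ori p q` is an affine function of the third point -/
theorem ori_aff (p q a b : Pt) (s t : ℝ) (h : s + t = 1) :
    ori p q (s • a + t • b) = s * ori p q a + t * ori p q b := by
  obtain rfl : s = 1 - t := by linarith
  simp only [ori, Prod.fst_add, Prod.snd_add, Prod.smul_fst, Prod.smul_snd, smul_eq_mul]
  ring

theorem aff_aff (c : ℝ × ℝ × ℝ) (a b : Pt) (s t : ℝ) (h : s + t = 1) :
    aff c (s • a + t • b) = s * aff c a + t * aff c b := by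
  obtain rfl : s = 1 - t := by linarith
  simp only [aff, Prod.fst_add, Prod.snd_add, Prod.smul_fst, Prod.smul_snd, smul_eq_mul]
  ring

theorem collinear_iff_ori (p q r : Pt) : Collinear ℝ ({p, q, r} : Set Pt) ↔ ori p q r = 0 := by
  constructor
  · intro h
    rw [collinear_iff_of_mem (p₀ := p) (by simp)] at h
    obtain ⟨v, h⟩ := h
    obtain ⟨a, ha⟩ := h q (by simp)
    obtain ⟨b, hb⟩ := h r (by simp)
    rw [ha, hb]
    simp only [ori, vadd_eq_add, Prod.fst_add, Prod.snd_add, Prod.smul_fst, Prod.smul_snd,
      smul_eq_mul]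
    ring
  · intro h
    by_cases hpq : p = q
    · subst hpq
      have : ({p, p, r} : Set Pt) = {p, r} := by simp
      rw [this]
      exact collinear_pair ℝ p r
    · rw [collinear_iff_of_mem (p₀ := p) (by simp)]
      refine ⟨q - p, ?_⟩
      have hne : (q.1 - p.1) ^ 2 + (q.2 - p.2) ^ 2 ≠ 0 := by
        intro h0
        apply hpq
        have h1 : q.1 - p.1 = 0 := by nlinarith [sq_nonneg (q.1 - p.1), sq_nonneg (q.2 - p.2)]
        have h2 : q.2 - p.2 = 0 := by nlinarith [sq_nonneg (q.1 - p.1), sq_nonneg (q.2 - p.2)]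
        exact Prod.ext (by linarith) (by linarith)
      intro x hx
      simp only [Set.mem_insert_iff, Set.mem_singleton_iff] at hx
      rcases hx with rfl | rfl | rfl
      · exact ⟨0, by simp⟩
      · exact ⟨1, by simp⟩
      · refine ⟨((q.1 - p.1) * (x.1 - p.1) + (q.2 - p.2) * (x.2 - p.2)) /
          ((q.1 - p.1) ^ 2 + (q.2 - p.2) ^ 2), ?_⟩
        unfold ori at h
        ext
        · simp only [vadd_eq_add, Prod.fst_add, Prod.smul_fst, Prod.fst_sub, smul_eq_mul]
          field_simp
          linear_combination (q.2 - p.2) * (-h)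
        · simp only [vadd_eq_add, Prod.snd_add, Prod.smul_snd, Prod.snd_sub, smul_eq_mul]
          field_simp
          linear_combination (q.1 - p.1) * h

theorem GeneralPosition.ori_ne {V : Type} {P : V → Pt} (h : GeneralPosition P) {u v w : V}
    (h1 : u ≠ v) (h2 : v ≠ w) (h3 : u ≠ w) : ori (P u) (P v) (P w) ≠ 0 := by
  intro h0
  exact h.2 u v w h1 h2 h3 ((collinear_iff_ori _ _ _).2 h0)

theorem generalPosition_of {V : Type} {P : V → Pt} (h0 : Function.Injective P)
    (h : ∀ u v w, u ≠ v → v ≠ w → u ≠ w → ori (P u) (P v) (P w) ≠ 0) : GeneralPosition P :=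
  ⟨h0, fun u v w h1 h2 h3 hc => h u v w h1 h2 h3 ((collinear_iff_ori _ _ _).1 hc)⟩

/-- a point with positive orientations is a convex combination -/
theorem mem_triangle {x y z w : Pt} (h1 : 0 < ori x y w) (h2 : 0 < ori y z w)
    (h3 : 0 < ori z x w) : w ∈ convexHull ℝ ({x, y, z} : Set Pt) := by
  have hs := ori_sum x y z w
  have hpos : 0 < ori x y z := by linarith
  have hw : w = (ori y z w / ori x y z) • x + (ori z x w / ori x y z) • y +
      (ori x y w / ori x y z) • z := by
    have hne := hpos.ne'
    ext
    · simp only [Prod.fst_add, Prod.smul_fst, smul_eq_mul]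
      field_simp
      unfold ori; ring
    · simp only [Prod.snd_add, Prod.smul_snd, smul_eq_mul]
      field_simp
      unfold ori; ring
  have h := (convex_convexHull ℝ ({x, y, z} : Set Pt)).sum_mem
    (t := (Finset.univ : Finset (Fin 3))) (w := ![ori y z w / ori x y z, ori z x w / ori x y z,
    ori x y w / ori x y z]) (z := ![x, y, z])
    (by
      intro i _
      fin_cases i
      · exact (div_pos h2 hpos).le
      · exact (div_pos h3 hpos).le
      · exact (div_pos h1 hpos).le)
    (by
      rw [Fin.sum_univ_three]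
      simp only [Matrix.cons_val_zero, Matrix.cons_val_one, Matrix.cons_val]
      field_simp
      linarith)
    (by
      intro i _
      fin_cases i <;> exact subset_convexHull ℝ _ (by simp))
  rw [Fin.sum_univ_three] at h
  simp only [Matrix.cons_val_zero, Matrix.cons_val_one, Matrix.cons_val] at h
  rw [← hw] at h
  exact h

/-! ## Representations -/

namespace Rep

variable {C : Set Pt} {V : Type} {G : SimpleGraph V} {P : V → Pt}

theorem amb (h : Rep C G P) : Amb C (convexHull ℝ (Set.range P)) :=
  ⟨h.conn, convex_convexHull ℝ _, h.nsub⟩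

theorem mem (_h : Rep C G P) (v : V) : P v ∈ convexHull ℝ (Set.range P) :=
  subset_convexHull ℝ _ ⟨v, rfl⟩

theorem gp (h : Rep C G P) : GeneralPosition P := h.rep.1

theorem sees_self (h : Rep C G P) (v : V) : Sees C (P v) (P v) := by
  unfold Sees
  rw [segment_same, Set.singleton_inter_eq_empty]
  exact h.rep.2.1 v

theorem adj_iff (h : Rep C G P) {u v : V} (huv : u ≠ v) : G.Adj u v ↔ Sees C (P u) (P v) :=
  h.rep.2.2 u v huv

theorem sees (h : Rep C G P) {u v : V} (ha : G.Adj u v) : Sees C (P u) (P v) :=
  (h.adj_iff ha.ne).1 ha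

end Rep

theorem Sees.symm {C : Set Pt} {p q : Pt} (h : Sees C p q) : Sees C q p := by
  unfold Sees at h ⊢
  rw [segment_symm]
  exact h

/-! ## The graph -/

/-- neighbours of the vertices `hj j true` -/
theorem adj_hjt {n m : ℕ} {T : Fin m → Fin 3 → Fin n} {j : Fin m} {z : Vx n m}
    (h : (Gr T).Adj (.hj j true) z) : (∃ i, z = .top i) ∨ z = .jam j false := by
  obtain ⟨-, h⟩ := h
  cases z <;> simp_all [adj0]

/-- neighbours of the vertices below a door -/
theorem adj_gad {n m : ℕ} {T : Fin m → Fin 3 → Fin n} {j : Fin m} {g z : Vx n m} (hg : Gad j g)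
    (h : (Gr T).Adj g z) :
    (Gad j z) ∨ (∃ s, z = .jam j s) ∨ (∃ k i, g = .pr j k ∧ z = .top i ∧ el T j k = i) := by
  obtain ⟨-, h⟩ := h
  cases g <;> cases z <;> simp_all [adj0, Gad]
  grind

end Pool.Agent.SO
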