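import Pool.Agent.Helper88_SO.Tools

/-!
# Modules CYC and POS
-/

namespace Pool.Agent.SO.H88

theorem cyc (hQ : QuadStmt) : CycStmt := by
  intro V G C P hR p q r s hpq hqr hrs hsp hpr hqs npr nqs
  have q1 : ¬ ori (P p) (P r) (P q) * ori (P p) (P r) (P s) < 0 := fun h =>
    npr ((hR.adj_iff hpr).2 (hQ C _ hR.amb _ (hR.mem p) _ (hR.mem q) _ (hR.mem r) _ (hR.mem s)
      (hR.sees hpq) (hR.sees hqr) (hR.sees hrs) (hR.sees hsp) h))
  have q2 : ¬ ori (P q) (P s) (P r) * ori (P q) (P s) (P p) < 0 := fun h =>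
    nqs ((hR.adj_iff hqs).2 (hQ C _ hR.amb _ (hR.mem q) _ (hR.mem r) _ (hR.mem s) _ (hR.mem p)
      (hR.sees hqr) (hR.sees hrs) (hR.sees hsp) (hR.sees hpq) h))
  have n1 : ori (P p) (P r) (P q) ≠ 0 := hR.gp.ori_ne hpr hqr.ne.symm hpq.ne
  have n2 : ori (P p) (P r) (P s) ≠ 0 := hR.gp.ori_ne hpr hrs.ne hsp.ne.symm
  have n3 : ori (P q) (P s) (P r) ≠ 0 := hR.gp.ori_ne hqs hrs.ne.symm hqr.ne
  have n4 : ori (P q) (P s) (P p) ≠ 0 := hR.gp.ori_ne hqs hsp.ne hpq.ne.symm
  have e1 : ori (P p) (P q) (P r) = -ori (P p) (P r) (P q) := by unfold ori; ring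
  have e2 : ori (P p) (P q) (P s) = ori (P q) (P s) (P p) := by unfold ori; ring
  have e3 : ori (P r) (P s) (P p) = ori (P p) (P r) (P s) := by unfold ori; ring
  have e4 : ori (P r) (P s) (P q) = -ori (P q) (P s) (P r) := by unfold ori; ring
  have e5 : ori (P q) (P r) (P s) = -ori (P q) (P s) (P r) := by unfold ori; ring
  have e6 : ori (P q) (P r) (P p) = -ori (P p) (P r) (P q) := by unfold ori; ring
  have e7 : ori (P s) (P p) (P q) = ori (P q) (P s) (P p) := by unfold ori; ring
  have e8 : ori (P s) (P p) (P r) = ori (P p) (P r) (P s) := by unfold ori; ring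
  unfold Cross
  rw [e1, e2, e3, e4, e5, e6, e7, e8]
  rcases lt_or_gt_of_ne n1 with a1 | a1 <;> rcases lt_or_gt_of_ne n2 with a2 | a2 <;>
    rcases lt_or_gt_of_ne n3 with a3 | a3 <;> rcases lt_or_gt_of_ne n4 with a4 | a4 <;>
    first
    | (exact absurd (mul_neg_of_neg_of_pos a1 a2) q1)
    | (exact absurd (mul_neg_of_pos_of_neg a1 a2) q1)
    | (exact absurd (mul_neg_of_neg_of_pos a3 a4) q2)
    | (exact absurd (mul_neg_of_pos_of_neg a3 a4) q2)
    | (left; constructor <;> nlinarith)
    | (right; constructor <;> nlinarith)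

theorem el_lt {n m : ℕ} (T : Fin m → Fin 3 → Fin n) (j : Fin m) (k : Fin 5) (h : k.val < 3) :
    (el T j k).val = (T j ⟨k.val, h⟩).val := by
  simp [el, h]

theorem el_three {n m : ℕ} (T : Fin m → Fin 3 → Fin n) (j : Fin m) : (el T j 3).val = n := by
  simp [el]

theorem el_four {n m : ℕ} (T : Fin m → Fin 3 → Fin n) (j : Fin m) : (el T j 4).val = n + 1 := by
  simp [el]

theorem pos : PosStmt := by
  constructor
  · intro n m T hT ⟨r, hr, hb⟩
    classical
    let rk : Fin n → ℕ := fun i => (Finset.univ.filter (fun i' => r i' < r i)).card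
    have hlt : ∀ i i', r i < r i' → rk i < rk i' := by
      intro i i' h
      apply Finset.card_lt_card
      constructor
      · intro x hx
        simp only [Finset.mem_filter, Finset.mem_univ, true_and] at hx ⊢
        omega
      · intro hsub
        have : i ∈ Finset.univ.filter (fun x => r x < r i') := by simp [h]
        have := hsub this
        simp at this
    have hrn : ∀ i, rk i < n := by
      intro i
      have h1 : (Finset.univ.filter (fun i' => r i' < r i)).card < (Finset.univ : Finset (Fin n)).card := by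
        apply Finset.card_lt_card
        constructor
        · exact Finset.filter_subset _ _
        · intro hsub
          have := hsub (Finset.mem_univ i)
          simp at this
      simpa using h1
    have hinj : ∀ i i', rk i = rk i' → i = i' := by
      intro i i' h
      by_contra hne
      rcases lt_or_gt_of_ne (fun h => hne (hr h) : r i ≠ r i') with h1 | h1
      · have := hlt _ _ h1; omega
      · have := hlt _ _ h1; omega
    let ps : Fin (n + 2) → ℕ := fun i => if h : i.val < n then rk ⟨i.val, h⟩ else i.val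
    have hps1 : ∀ (i : Fin (n + 2)) (h : i.val < n), ps i = rk ⟨i.val, h⟩ := by
      intro i h; simp [ps, h]
    have hps2 : ∀ (i : Fin (n + 2)) (h : ¬ i.val < n), ps i = i.val := by
      intro i h; simp [ps, h]
    refine ⟨ps, ?_, ?_, ?_, ?_, ?_⟩
    · intro i i' h
      by_cases h1 : i.val < n <;> by_cases h2 : i'.val < n
      · rw [hps1 i h1, hps1 i' h2] at h
        have := congrArg Fin.val (hinj _ _ h)
        exact Fin.ext this
      · rw [hps1 i h1, hps2 i' h2] at h
        have := hrn ⟨i.val, h1⟩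
        omega
      · rw [hps2 i h1, hps1 i' h2] at h
        have := hrn ⟨i'.val, h2⟩
        omega
      · rw [hps2 i h1, hps2 i' h2] at h
        exact Fin.ext h
    · intro i h
      rw [hps1 i h]
      exact hrn _
    · intro i h
      rw [hps2 i (by omega), h]
    · intro i h
      rw [hps2 i (by omega), h]
    · intro j
      have key : ∀ k : Fin 5, ∀ h : k.val < 3, ps (el T j k) = rk (T j ⟨k.val, h⟩) := by
        intro k h
        have h1 : (el T j k).val < n := by
          rw [el_lt T j k h]; exact (T j ⟨k.val, h⟩).isLt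
        rw [hps1 _ h1]
        congr 1
        exact Fin.ext (el_lt T j k h)
      have k0 := key 0 (by simp)
      have k1 := key 1 (by simp)
      have k2 := key 2 (by simp)
      rw [k0, k1, k2]
      rcases hb j with ⟨h1, h2⟩ | ⟨h1, h2⟩
      · exact Or.inl ⟨hlt _ _ h1, hlt _ _ h2⟩
      · exact Or.inr ⟨hlt _ _ h1, hlt _ _ h2⟩
  · intro n m T u
    have hex : ∀ i : Fin (n + 2), ∃ i' : Fin (n + 2), i' ≠ i := fun i => exists_ne i
    cases u with
    | top i =>
      obtain ⟨i', hi'⟩ := hex i
      exact ⟨.top i', by simp [Gr, adj0, hi'.symm]⟩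
    | hel i =>
      obtain ⟨i', hi'⟩ := hex i
      exact ⟨.top i', by simp [Gr, adj0, hi'.symm]⟩
    | jam j s => exact ⟨.top 0, by simp [Gr, adj0]⟩
    | hj j s => exact ⟨.top 0, by cases s <;> simp [Gr, adj0]⟩
    | pr j k => exact ⟨.jam j true, by simp [Gr, adj0]⟩
    | hc j k => exact ⟨.jam j true, by simp [Gr, adj0]⟩
    | hd j s => exact ⟨.jam j (!s), by simp [Gr, adj0]⟩
    | ho j s t => exact ⟨.jam j s, by simp [Gr, adj0]⟩

end Pool.Agent.SO.H88
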