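import Mathlib

/-!
# Single-obstacle representations: definitions (MP_3b0ea9_lc)

Obstacles, visibility graphs of point sets, and the graph of a betweenness instance.
-/

namespace Pool.Agent.SO

/-- Points of the plane. -/
abbrev Pt : Type := ℝ × ℝ

/-! ## Obstacles and visibility graphs -/

/-- `S` is a non-self-intersecting closed polygon: the union of the segments joining consecutive
points of a cyclic sequence of distinct points `p 0, …, p (n - 1)` with `n ≥ 3`, such that
consecutive segments have only their common endpoint in common and any two other segments are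
disjoint. -/
def IsSimplePolygon (S : Set Pt) : Prop :=
  ∃ (n : ℕ) (p : ZMod n → Pt), 3 ≤ n ∧ Function.Injective p ∧
    (∀ i, segment ℝ (p i) (p (i + 1)) ∩ segment ℝ (p (i + 1)) (p (i + 2)) = {p (i + 1)}) ∧
    (∀ i j, i ≠ j → j ≠ i + 1 → i ≠ j + 1 →
      Disjoint (segment ℝ (p i) (p (i + 1))) (segment ℝ (p j) (p (j + 1)))) ∧
    S = ⋃ i, segment ℝ (p i) (p (i + 1))

/-- An obstacle: an open connected set whose boundary is a non-self-intersecting closed polygon
(by the Jordan curve theorem this is the bounded interior or the unbounded exterior of the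
polygon). -/
def IsObstacle (C : Set Pt) : Prop :=
  IsOpen C ∧ IsConnected C ∧ IsSimplePolygon (frontier C)

/-- The points are distinct and no three of them are collinear. -/
def GeneralPosition {V : Type} (P : V → Pt) : Prop :=
  Function.Injective P ∧
    ∀ u v w, u ≠ v → v ≠ w → u ≠ w → ¬ Collinear ℝ ({P u, P v, P w} : Set Pt)

/-- `G` is the visibility graph of the points `P v` with respect to the obstacle `C`. -/
def Represents (C : Set Pt) {V : Type} (G : SimpleGraph V) (P : V → Pt) : Prop :=
  GeneralPosition P ∧ (∀ v, P v ∉ C) ∧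
    ∀ u v, u ≠ v → (G.Adj u v ↔ segment ℝ (P u) (P v) ∩ C = ∅)

/-- The graph has a single-obstacle representation. -/
def HasRep {V : Type} (G : SimpleGraph V) : Prop :=
  ∃ C, IsObstacle C ∧ ∃ P : V → Pt, Represents C G P

/-! ## The graph of a betweenness instance -/

/-- Vertices of the graph of an instance with `n` elements and `m` triples. -/
inductive Vx (n m : ℕ) : Type
  | top (i : Fin (n + 2))
  | hel (i : Fin (n + 2))
  | jam (j : Fin m) (s : Bool)
  | hj (j : Fin m) (s : Bool)
  | pr (j : Fin m) (k : Fin 5)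
  | hc (j : Fin m) (k : Fin 5)
  | hd (j : Fin m) (s : Bool)
  | ho (j : Fin m) (s t : Bool)
deriving DecidableEq, Fintype

/-- The five top vertices seen from the door `j`: the three elements of the triple and the two
additional elements `n` and `n + 1`. -/
def el {n m : ℕ} (T : Fin m → Fin 3 → Fin n) (j : Fin m) (k : Fin 5) : Fin (n + 2) :=
  if h : k.val < 3 then ⟨(T j ⟨k.val, h⟩).val, by have := (T j ⟨k.val, h⟩).isLt; omega⟩
  else if k.val = 3 then ⟨n, by omega⟩ else ⟨n + 1, by omega⟩

/-- Adjacency, up to symmetry. -/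
def adj0 {n m : ℕ} (T : Fin m → Fin 3 → Fin n) : Vx n m → Vx n m → Prop
  | .top i, .top i' => i ≠ i'
  | .top _, .jam _ _ => True
  | .jam j s, .jam j' s' => j ≠ j' ∨ s ≠ s'
  | .hel i, .top i' => i ≠ i'
  | .hel _, .jam _ _ => True
  | .hj _ _, .top _ => True
  | .hj j false, .jam j' s' => (j' = j ∧ s' = true) ∨ j < j'
  | .hj j true, .jam j' s' => j' = j ∧ s' = false
  | .pr j k, .pr j' k' => j = j' ∧ k ≠ k'
  | .pr j _, .jam j' _ => j = j'
  | .pr j k, .top i => el T j k = i
  | .hc j _, .jam j' _ => j = j'
  | .hc j k, .pr j' k' => j = j' ∧ k ≠ k'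
  | .hd j s, .jam j' s' => j = j' ∧ s ≠ s'
  | .hd j _, .pr j' _ => j = j'
  | .ho j s _, .jam j' s' => j = j' ∧ s = s'
  | .ho j _ t, .pr j' k => j = j' ∧ (k = 1 ∨ k = if t then 2 else 0)
  | _, _ => False

/-- The graph of a betweenness instance. -/
def Gr {n m : ℕ} (T : Fin m → Fin 3 → Fin n) : SimpleGraph (Vx n m) where
  Adj u v := u ≠ v ∧ (adj0 T u v ∨ adj0 T v u)
  symm := ⟨fun _ _ h => ⟨h.1.symm, h.2.symm⟩⟩
  loopless := ⟨fun _ h => h.1 rfl⟩

/-- The betweenness instance is solvable: the elements can be ordered such that the middle element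
of every triple lies between the two others. -/
def Solvable {n m : ℕ} (T : Fin m → Fin 3 → Fin n) : Prop :=
  ∃ r : Fin n → ℤ, Function.Injective r ∧ ∀ j,
    (r (T j 0) < r (T j 1) ∧ r (T j 1) < r (T j 2)) ∨
    (r (T j 2) < r (T j 1) ∧ r (T j 1) < r (T j 0))

/-- The three elements of every triple are distinct. -/
def Distinct3 {n m : ℕ} (T : Fin m → Fin 3 → Fin n) : Prop := ∀ j, Function.Injective (T j)

end Pool.Agent.SO
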