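import Pool.Agent.Helper88_SO.Tools

/-!
# Assembly of the main theorem
-/

namespace Pool.Agent.SO

open Pool.Agent.Common_CookLevin (CNF encodeCNF satProblem hard_of_sat)
open Pool.Agent.Helper32_HCK (DecisionProblem InNP PolyReduces languageProblem)

theorem HasRep.congr {V W : Type} {G : SimpleGraph V} {H : SimpleGraph W} (e : G ≃g H)
    (h : HasRep G) : HasRep H := by
  obtain ⟨C, hC, P, ⟨h1, h2⟩, h3, h4⟩ := h
  refine ⟨C, hC, fun w => P (e.symm w), ⟨h1.comp e.symm.injective, ?_⟩, fun w => h3 _, ?_⟩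
  · intro u v w a b c
    exact h2 _ _ _ (fun h => a (e.symm.injective h)) (fun h => b (e.symm.injective h))
      (fun h => c (e.symm.injective h))
  · intro u v huv
    rw [← h4 _ _ (fun h => huv (e.symm.injective h))]
    exact e.symm.map_adj_iff.symm

/-- the graph of an instance of betweenness -/
theorem main_iff (hS : SoundStmt) (hP : PosStmt) (hW : WeakStmt) (hD : DoubleStmt)
    {n m : ℕ} (T : Fin m → Fin 3 → Fin n) (hT : Distinct3 T) :
    HasRep (Gr T ⊕g Gr T) ↔ Solvable T := by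
  refine ⟨hS n m T hT, fun h => ?_⟩
  obtain ⟨ps, hps⟩ := hP.1 n m T hT h
  have hne : Nonempty (Vx n m) := ⟨.top 0⟩
  exact hD (Vx n m) (Gr T) (pl T ps) (hP.2 n m T) (hW n m T ps hT hps)

theorem final (hE : EncStmt) (hS : SoundStmt) (hP : PosStmt) (hW : WeakStmt) (hD : DoubleStmt)
    (hR : KredStmt) (hK : KpolyStmt) :
    ∀ L : Set (List Bool), InNP (languageProblem L) →
      PolyReduces (languageProblem L) (singleObstacle hE) := by
  intro L hL
  refine hard_of_sat ?_ L hL
  obtain ⟨f, h1, h2⟩ := hK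
  refine ⟨f, h2, fun F => ?_⟩
  obtain ⟨e⟩ := h1 F
  have h3 := main_iff hS hP hW hD (instF F) (hR F).1
  have h4 := (hR F).2
  exact ⟨fun h => (h3.2 (h4.2 h)).congr e.symm, fun h => h4.1 (h3.1 (h.congr e))⟩

end Pool.Agent.SO
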