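import Pool.Agent.Helper22_SO.Below

/-!
# Modules FREE and GO
-/

namespace Pool.Agent.SO.H88

open Pool.Agent.SO.H22

variable {n m : ℕ} {T : Fin m → Fin 3 → Fin n} {j : Fin m} {gam sg mu : ℝ}
  {S : Fin (n + 2) → ℝ} {Q : Vx n m → Pt}

/-- case analysis of the edges at a door -/
theorem edge_cases (R : Vx n m → Vx n m → Prop) (hsymm : ∀ x y, R x y → R y x)
    (h1 : ∀ x y, x = .hj j true → ((∃ i, y = .top i) ∨ y = .jam j false) → R x y)
    (h2 : ∀ k, R (.pr j k) (.top (el T j k)))
    (h3 : ∀ x y, Gad j x → (Gad j y ∨ ∃ s, y = .jam j s) → R x y)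
    (h4 : ∀ x y, ¬ Gad j x → ¬ Gad j y → x ≠ .hj j true → y ≠ .hj j true → R x y)
    (x y : Vx n m) (hxy : (Gr T).Adj x y) : R x y := by
  have key : ∀ x y : Vx n m, (Gr T).Adj x y → (Gad j x ∨ x = .hj j true) → R x y := by
    intro x y hxy hx
    rcases hx with hx | hx
    · rcases adj_gad hx hxy with h | h | ⟨k, i, rfl, rfl, rfl⟩
      · exact h3 x y hx (Or.inl h)
      · exact h3 x y hx (Or.inr h)
      · exact h2 k
    · subst hx
      exact h1 _ y rfl (adj_hjt hxy)
  by_cases hx : Gad j x ∨ x = .hj j true
  · exact key x y hxy hx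
  by_cases hy : Gad j y ∨ y = .hj j true
  · exact hsymm _ _ (key y x hxy.symm hy)
  push Not at hx hy
  exact h4 x y hx.1 hy.1 hx.2 hy.2

theorem free (hRay : RayStmt) : FreeStmt := by
  intro n m T j gam sg mu S Q hV
  have hmu := hV.mu_pos
  have hmu' := hV.mu_le
  have hsg := hV.sg_pos
  have hsg' := hV.sg_le
  have hgam := hV.gam_pos
  have hgam' := hV.gam_le
  have ew : sg / 100 * gam / 20000 / 2 = sg / 100 * (gam / 40000) := by ring
  have hw : 0 < sg / 100 * (gam / 40000) := by positivity
  have hw' : sg / 100 * (gam / 40000) ≤ sg / 1000000 := by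
    have : gam / 40000 ≤ 1 / 10000 := by linarith
    calc sg / 100 * (gam / 40000) ≤ sg / 100 * (1 / 10000) :=
          mul_le_mul_of_nonneg_left this (by positivity)
      _ = sg / 1000000 := by ring
  have hpr : ∀ k (c : ℝ), aff (0, -c, c * S (el T j k)) (Q (.pr j k)) = 0 ∧
      aff (0, -c, c * S (el T j k)) (Q (.top (el T j k))) = 0 := by
    intro k c
    constructor
    · rw [Q_gad hV (show Gad j (.pr j k) from rfl)]
      have hY : 0 < yc T S (.pr j k) := by linarith [(yc_bounds hV (show Gad j (.pr j k) from rfl)).1]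
      simp only [aff, piP, xc]
      field_simp
      ring
    · simp only [aff]
      rw [hV.top_S]
      ring
  have hSb : ∀ i, -(11 / 10) ≤ S i ∧ S i ≤ 11 / 10 := fun i => abs_le.1 (hV.S_abs i)
  have top1 : ∀ i, -1 ≤ (Q (.top i)).1 ∧ (Q (.top i)).1 ≤ 1 ∧ 24 / 25 ≤ (Q (.top i)).2 :=
    fun i => ⟨(abs_le.1 (hV.top_u i)).1, (abs_le.1 (hV.top_u i)).2, (hV.top_v i).1⟩
  rw [ew]
  constructor
  · apply hRay.1
    · apply edge_cases (j := j) (T := T) (fun x y => ∃ c, 0 ≤ aff c (-(sg / 100 * (gam / 40000)), 0) ∧
        0 < c.2.1 * (-1 : ℝ) + c.2.2 * (-(29 / 100)) ∧ aff c (Q x) ≤ 0 ∧ aff c (Q y) ≤ 0)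
      · rintro x y ⟨c, a, b, d, e⟩; exact ⟨c, a, b, e, d⟩
      · rintro x y rfl hy
        refine ⟨(27 / 100 * (sg / 100 * (gam / 40000)), 27 / 100, -1), ?_, ?_, ?_, ?_⟩
        · simp only [aff]; linarith
        · norm_num
        · rw [Q_hjt hV]; simp only [aff]; linarith
        · rcases hy with ⟨i, rfl⟩ | rfl
          · have := top1 i
            simp only [aff]; linarith
          · rw [Q_jl hV]; simp only [aff]; linarith
      · intro k
        have := hpr k 1
        rw [one_mul] at this
        refine ⟨(0, -1, S (el T j k)), ?_, ?_, this.1.le, this.2.le⟩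
        · simp only [aff]; linarith
        · have := hSb (el T j k)
          show 0 < (-1 : ℝ) * (-1) + S (el T j k) * (-(29 / 100))
          linarith
      · intro x y hx hy
        have e1 : (-(31 / 100) * (gam / 40000) * (sg / 100), -(31 / 100), (1 : ℝ)) =
            (-(31 / 100) * (gam / 40000) * (sg / 100), -(31 / 100), (1 : ℝ)) := rfl
        have hgad : ∀ z, Gad j z → aff (-(31 / 100) * (gam / 40000) * (sg / 100), -(31 / 100), (1 : ℝ))
            (Q z) ≤ 0 := by
          intro z hz
          apply gad_le hV hz
          have b1 := (yc_bounds hV hz).1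
          have b2 := (xc_bounds hV hz).2
          have : 0 < gam / 40000 * yc T S z := by positivity
          linarith
        refine ⟨(-(31 / 100) * (gam / 40000) * (sg / 100), -(31 / 100), 1), ?_, ?_, hgad x hx, ?_⟩
        · simp only [aff]; linarith
        · norm_num
        · rcases hy with hy | ⟨s, rfl⟩
          · exact hgad y hy
          · cases s
            · rw [Q_jl hV]; simp only [aff]; linarith
            · rw [Q_jr hV]; simp only [aff]; linarith
      · intro x y hx hy hx' hy'
        refine ⟨(0, 0, -1), ?_, ?_, ?_, ?_⟩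
        · simp only [aff]; linarith
        · norm_num
        · have := v_nonneg hV hx hx'; simp only [aff]; linarith
        · have := v_nonneg hV hy hy'; simp only [aff]; linarith
    · intro h
      have := congrArg Prod.fst h
      simp at this
  · apply hRay.1
    · apply edge_cases (j := j) (T := T) (fun x y => ∃ c, 0 ≤ aff c (sg / 100 * (gam / 40000), 0) ∧
        0 < c.2.1 * (1 : ℝ) + c.2.2 * (-(29 / 100)) ∧ aff c (Q x) ≤ 0 ∧ aff c (Q y) ≤ 0)
      · rintro x y ⟨c, a, b, d, e⟩; exact ⟨c, a, b, e, d⟩
      · rintro x y rfl hy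
        refine ⟨(0, 1, -2), ?_, ?_, ?_, ?_⟩
        · simp only [aff]; linarith
        · norm_num
        · rw [Q_hjt hV]; simp only [aff]; linarith
        · rcases hy with ⟨i, rfl⟩ | rfl
          · have := top1 i
            simp only [aff]; linarith
          · rw [Q_jl hV]; simp only [aff]; linarith
      · intro k
        have := hpr k (-1)
        refine ⟨(0, 1, -S (el T j k)), ?_, ?_, ?_, ?_⟩
        · simp only [aff]; linarith
        · have := hSb (el T j k)
          show 0 < (1 : ℝ) * (1) + -S (el T j k) * (-(29 / 100))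
          linarith
        · have := this.1
          rw [neg_neg, neg_one_mul] at this
          exact this.le
        · have := this.2
          rw [neg_neg, neg_one_mul] at this
          exact this.le
      · intro x y hx hy
        have hgad : ∀ z, Gad j z → aff (-(31 / 100) * (gam / 40000) * (sg / 100), (31 / 100), (1 : ℝ))
            (Q z) ≤ 0 := by
          intro z hz
          apply gad_le hV hz
          have b1 := (yc_bounds hV hz).1
          have b2 := (xc_bounds hV hz).1
          have : 0 < gam / 40000 * yc T S z := by positivity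
          linarith
        refine ⟨(-(31 / 100) * (gam / 40000) * (sg / 100), (31 / 100), 1), ?_, ?_, hgad x hx, ?_⟩
        · simp only [aff]; linarith
        · norm_num
        · rcases hy with hy | ⟨s, rfl⟩
          · exact hgad y hy
          · cases s
            · rw [Q_jl hV]; simp only [aff]; linarith
            · rw [Q_jr hV]; simp only [aff]; linarith
      · intro x y hx hy hx' hy'
        refine ⟨(0, 0, -1), ?_, ?_, ?_, ?_⟩
        · simp only [aff]; linarith
        · norm_num
        · have := v_nonneg hV hx hx'; simp only [aff]; linarith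
        · have := v_nonneg hV hy hy'; simp only [aff]; linarith
    · intro h
      have := congrArg Prod.fst h
      simp at this

/-- crossing the left ray -/
theorem cross_left {rho x Y g : ℝ} {z : Pt} (hr : 0 < rho) (hY : 0 < Y) (hg : 0 < g)
    (hx : x ≤ 3) (h1 : 29 / 100 * (z.1 + rho * g) < z.2)
    (h2 : z.1 - x * z.2 + g * (Y * z.2 + rho) < 0) :
    CrossRay (piP rho x Y) z (-(rho * g), 0) (-1, -(29 / 100)) := by
  right
  have hy : 0 < rho / Y := by positivity
  refine ⟨?_, ?_, ?_⟩
  · simp only [piP]
    have e : (-1 : ℝ) * (-(rho / Y) - 0) - -(29 / 100) * (-(rho * x / Y) - -(rho * g)) =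
        rho / Y * (1 - 29 / 100 * x) + 29 / 100 * (rho * g) := by
      field_simp; ring
    rw [e]
    have : 0 < 1 - 29 / 100 * x := by linarith
    positivity
  · simp only
    linarith
  · have e : ori (piP rho x Y) z (-(rho * g), 0) =
        rho / Y * (z.1 - x * z.2 + g * (Y * z.2 + rho)) := by
      simp only [ori, piP]
      field_simp; ring
    rw [e]
    exact mul_neg_of_pos_of_neg hy h2

/-- crossing the right ray -/
theorem cross_right {rho x Y g : ℝ} {z : Pt} (hr : 0 < rho) (hY : 0 < Y) (hg : 0 < g)
    (hx : -3 ≤ x) (h1 : 0 < z.2 + 29 / 100 * (z.1 - rho * g))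
    (h2 : 0 < z.1 - x * z.2 - g * (Y * z.2 + rho)) :
    CrossRay (piP rho x Y) z (rho * g, 0) (1, -(29 / 100)) := by
  left
  have hy : 0 < rho / Y := by positivity
  refine ⟨?_, ?_, ?_⟩
  · simp only [piP]
    have e : (1 : ℝ) * (-(rho / Y) - 0) - -(29 / 100) * (-(rho * x / Y) - (rho * g)) =
        -(rho / Y * (1 + 29 / 100 * x) + 29 / 100 * (rho * g)) := by
      field_simp; ring
    rw [e]
    have : 0 < 1 + 29 / 100 * x := by linarith
    have : 0 < rho / Y * (1 + 29 / 100 * x) + 29 / 100 * (rho * g) := by positivity
    linarith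
  · simp only
    linarith
  · have e : ori (piP rho x Y) z (rho * g, 0) =
        rho / Y * (z.1 - x * z.2 - g * (Y * z.2 + rho)) := by
      simp only [ori, piP]
      field_simp; ring
    rw [e]
    exact mul_pos hy h2

/-- distance of the slopes -/
theorem slope_dist (hV : View T j gam sg mu S Q) {g : Vx n m} (hg : Gad j g)
    {i : Fin (n + 2)} (hadj : ¬ (Gr T).Adj g (.top i)) : gam / 2 ≤ |S i - xc T gam S g| := by
  have hgam := hV.gam_pos
  have hgam' := hV.gam_le
  obtain ⟨s1, s2⟩ := abs_le.1 (hV.S_abs i)
  cases g with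
  | pr j' k =>
    obtain rfl : j' = j := hg
    have : i ≠ el T j' k := by
      rintro rfl
      exact hadj ⟨by simp, Or.inl rfl⟩
    have := hV.S_gap _ _ this
    simp only [xc]
    linarith
  | hc j' k =>
    obtain ⟨a1, a2⟩ := abs_le.1 (hV.S_abs (el T j' k))
    simp only [xc, aC]
    rw [abs_of_nonneg (by linarith)]
    linarith
  | hd j' s =>
    cases s
    · simp only [xc]
      rw [abs_of_nonpos (by linarith)]
      linarith
    · simp only [xc]
      rw [abs_of_nonneg (by linarith)]
      linarith
  | ho j' s t =>
    obtain rfl : j' = j := hg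
    have key : ∀ a, gam / 2 ≤ |S i - (S a - gam / 2)| ∧ gam / 2 ≤ |S i - (S a + gam / 2)| := by
      intro a
      by_cases h : i = a
      · subst h
        constructor
        · rw [show S i - (S i - gam / 2) = gam / 2 by ring, abs_of_pos (by linarith)]
        · rw [show S i - (S i + gam / 2) = -(gam / 2) by ring, abs_neg, abs_of_pos (by linarith)]
      · have h1 := hV.S_gap _ _ h
        rcases le_abs.1 h1 with h2 | h2
        · constructor
          · rw [le_abs]; left; linarith
          · rw [le_abs]; left; linarith
        · constructor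
          · rw [le_abs]; right; linarith
          · rw [le_abs]; right; linarith
    cases s
    · simp only [xc]
      rcases min_choice (S (el T j' (kk t))) (S (el T j' 1)) with h | h <;> rw [h]
      · exact (key _).1
      · exact (key _).1
    · simp only [xc]
      rcases max_choice (S (el T j' (kk t))) (S (el T j' 1)) with h | h <;> rw [h]
      · exact (key _).2
      · exact (key _).2
  | top i => exact hg.elim
  | hel i => exact hg.elim
  | jam j' s => exact hg.elim
  | hj j' s => exact hg.elim

theorem go : GoStmt := by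
  intro n m T j gam sg mu S Q hV g z hg hz hj hadj
  have hmu := hV.mu_pos
  have hmu' := hV.mu_le
  have hsg := hV.sg_pos
  have hsg' := hV.sg_le
  have hgam := hV.gam_pos
  have hgam' := hV.gam_le
  have ew : sg / 100 * gam / 20000 / 2 = sg / 100 * (gam / 40000) := by ring
  rw [ew, Q_gad hV hg]
  obtain ⟨hY1, hY2⟩ := yc_bounds hV hg
  obtain ⟨hx1, hx2⟩ := xc_bounds hV hg
  obtain ⟨G, hG⟩ : ∃ G, G = gam / 40000 := ⟨_, rfl⟩
  have hG0 : 0 < G := by rw [hG]; positivity
  have hG1 : G ≤ 1 / 100000 := by rw [hG]; linarith
  obtain ⟨rho, hrho⟩ : ∃ rho, rho = sg / 100 := ⟨_, rfl⟩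
  have hr0 : 0 < rho := by rw [hrho]; positivity
  have hr1 : rho ≤ 1 / 1000000 := by rw [hrho]; linarith
  have hY : 0 < yc T S g := by linarith
  rw [← hG, ← hrho]
  have hw0 : 0 < rho * G := by positivity
  have hw1 : rho * G ≤ rho / 100000 := by nlinarith
  have hGY : G * yc T S g ≤ 107 * G := by nlinarith
  have hGY0 : 0 < G * yc T S g := by positivity
  have far : ∀ j', dr z = some j' → j' ≠ j →
      CrossRay (piP rho (xc T gam S g) (yc T S g)) (Q z) (-(rho * G), 0) (-1, -(29 / 100)) ∨
      CrossRay (piP rho (xc T gam S g) (yc T S g)) (Q z) (rho * G, 0) (1, -(29 / 100)) := by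
    intro j' h1 h2
    have f1 := hV.far_v z j' h1 h2
    have f2 := hV.far_50 z j' h1 h2
    have f3 := (hV.far_u z j' h1 h2).1
    rcases lt_or_gt_of_ne h2 with h | h
    · left
      have f4 := hV.far_l z j' h1 h
      rw [abs_of_neg f4] at f2 f3
      apply cross_left hr0 hY hG0 hx2
      · nlinarith
      · have e1 : -(xc T gam S g * (Q z).2) ≤ 3 * (Q z).2 := by nlinarith
        have e2 : G * yc T S g * (Q z).2 ≤ 1 * (Q z).2 := by
          apply mul_le_mul_of_nonneg_right _ f1.le
          linarith
        have e3 : G * rho ≤ rho := by nlinarith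
        have e4 : rho ≤ sg := by rw [hrho]; linarith
        nlinarith
    · right
      have f4 := hV.far_r z j' h1 h
      rw [abs_of_pos f4] at f2 f3
      apply cross_right hr0 hY hG0 hx1
      · nlinarith
      · have e1 : xc T gam S g * (Q z).2 ≤ 3 * (Q z).2 := by nlinarith
        have e2 : G * yc T S g * (Q z).2 ≤ 1 * (Q z).2 := by
          apply mul_le_mul_of_nonneg_right _ f1.le
          linarith
        have e3 : G * rho ≤ rho := by nlinarith
        have e4 : rho ≤ sg := by rw [hrho]; linarith
        nlinarith
  cases z with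
  | top i =>
    have hd := slope_dist hV hg hadj
    obtain ⟨t1, t2⟩ := abs_le.1 (hV.top_u i)
    obtain ⟨v1, v2⟩ := hV.top_v i
    have hS := hV.top_S i
    have e2 : G * (yc T S g * (Q (.top i)).2 + rho) ≤ gam / 2 * (24 / 25) / 2 := by
      have a1 : G * yc T S g * (Q (.top i)).2 ≤ 107 * G * (51 / 50) :=
        mul_le_mul hGY v2 (by linarith) (by positivity)
      have a2 : G * rho ≤ G := by nlinarith
      have a3 : G * (yc T S g * (Q (.top i)).2 + rho) =
        G * yc T S g * (Q (.top i)).2 + G * rho := by ring
      rw [a3]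
      have a4 : G = gam / 40000 := hG
      linarith
    rcases le_abs.1 hd with h | h
    · right
      apply cross_right hr0 hY hG0 hx1
      · linarith
      · have e1 : gam / 2 * (24 / 25) ≤ (S i - xc T gam S g) * (Q (.top i)).2 :=
          mul_le_mul h v1 (by norm_num) (by linarith)
        have e3 : (Q (.top i)).1 - xc T gam S g * (Q (.top i)).2 =
          (S i - xc T gam S g) * (Q (.top i)).2 := by rw [hS]; ring
        rw [e3]
        linarith
    · left
      apply cross_left hr0 hY hG0 hx2
      · linarith
      · have e1 : gam / 2 * (24 / 25) ≤ (-(S i - xc T gam S g)) * (Q (.top i)).2 :=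
          mul_le_mul h v1 (by norm_num) (by linarith)
        have e3 : (Q (.top i)).1 - xc T gam S g * (Q (.top i)).2 =
          (S i - xc T gam S g) * (Q (.top i)).2 := by rw [hS]; ring
        rw [e3]
        linarith
  | hel i =>
    left
    obtain ⟨t1, t2⟩ := hV.hel_u i
    obtain ⟨v1, v2⟩ := hV.hel_v i
    apply cross_left hr0 hY hG0 hx2
    · linarith
    · have e1 : -(xc T gam S g * (Q (.hel i)).2) ≤ 3 * (Q (.hel i)).2 := by nlinarith
      have e2 : G * yc T S g * (Q (.hel i)).2 ≤ 1 * (Q (.hel i)).2 := by
        apply mul_le_mul_of_nonneg_right _ (by linarith)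
        linarith
      have e3 : G * rho ≤ rho := by nlinarith
      nlinarith
  | hj j' s =>
    by_cases h : j' = j
    · subst h
      left
      cases s
      · have hQ : Q (.hj j' false) = (-(2 * sg), mu * sg) := by rw [hV.own _ rfl]; rfl
        rw [hQ]
        have hms : 0 < mu * sg := by positivity
        have hms' : mu * sg ≤ sg / 200 := by nlinarith
        apply cross_left hr0 hY hG0 hx2
        · simp only; rw [hrho] at hw1; rw [hrho]; linarith
        · simp only
          have e1 : -(xc T gam S g * (mu * sg)) ≤ 3 * (mu * sg) := by nlinarith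
          have e2 : G * yc T S g * (mu * sg) ≤ 1 * (mu * sg) := by
            apply mul_le_mul_of_nonneg_right _ hms.le
            linarith
          have e3 : G * rho ≤ rho := by nlinarith
          have e4 : rho = sg / 100 := hrho
          nlinarith
      · rw [Q_hjt hV]
        apply cross_left hr0 hY hG0 hx2
        · simp only; rw [hrho] at hw1; rw [hrho]; linarith
        · simp only
          have e1 : xc T gam S g * (sg / 4) ≤ 3 * (sg / 4) :=
            mul_le_mul_of_nonneg_right hx2 (by positivity)
          have e2 : 0 ≤ G * yc T S g * (sg / 4) := by positivity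
          have e3 : G * rho ≤ 1 / 100 * rho := by nlinarith
          have e4 : rho = sg / 100 := hrho
          nlinarith
    · exact far j' rfl h
  | jam j' s =>
    by_cases h : j' = j
    · subst h; exact absurd rfl (hj s)
    · exact far j' rfl h
  | pr j' k => exact far j' rfl hz
  | hc j' k => exact far j' rfl hz
  | hd j' s => exact far j' rfl hz
  | ho j' s t => exact far j' rfl hz

end Pool.Agent.SO.H88
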