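import Pool.Agent.Helper22_SO.Below

/-!
# Modules HJX, HJO
-/

namespace Pool.Agent.SO.H88

open Pool.Agent.SO.H22

variable {n m : ℕ} {T : Fin m → Fin 3 → Fin n} {j : Fin m} {gam sg mu : ℝ}
  {S : Fin (n + 2) → ℝ} {Q : Vx n m → Pt}

theorem Q_hjf (hV : View T j gam sg mu S Q) : Q (.hj j false) = (-(2 * sg), mu * sg) := by
  rw [hV.own _ rfl]; rfl

/-- `v + mu u` is nonnegative outside -/
theorem mu_nonneg (hV : View T j gam sg mu S Q) {z : Vx n m} (hg : ¬ Gad j z)
    (hz : z ≠ .hj j true) (hz' : z ≠ .hj j false) :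
    0 ≤ (Q z).2 + mu * ((Q z).1 + sg / 100 * (gam / 40000)) := by
  have hmu := hV.mu_pos
  have hmu' := hV.mu_le
  have hsg := hV.sg_pos
  have hgam := hV.gam_pos
  have hw : 0 < mu * (sg / 100 * (gam / 40000)) := by positivity
  have far : ∀ j', dr z = some j' → j' ≠ j →
      0 ≤ (Q z).2 + mu * ((Q z).1 + sg / 100 * (gam / 40000)) := by
    intro j' h1 h2
    have h3 := hV.far_mu z j' h1 h2
    have h4 := neg_abs_le (Q z).1
    nlinarith
  cases z with
  | top i =>
    have h1 := (abs_le.1 (hV.top_u i)).1
    have h2 := (hV.top_v i).1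
    nlinarith
  | hel i =>
    have h1 := (hV.hel_u i).1
    have h2 := (hV.hel_v i).1
    nlinarith
  | jam j' s =>
    by_cases h : j' = j
    · subst h
      cases s
      · rw [Q_jl hV]; simp
      · rw [Q_jr hV]; simp only []; positivity
    · exact far j' rfl h
  | hj j' s =>
    by_cases h : j' = j
    · subst h
      cases s
      · exact absurd rfl hz'
      · exact absurd rfl hz
    · exact far j' rfl h
  | pr j' k => exact far j' rfl hg
  | hc j' k => exact far j' rfl hg
  | hd j' s => exact far j' rfl hg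
  | ho j' s t => exact far j' rfl hg

theorem hjx : HjxStmt := by
  intro n m T j gam sg mu S Q hV s
  have hmu := hV.mu_pos
  have hmu' := hV.mu_le
  have hsg := hV.sg_pos
  have hsg' := hV.sg_le
  have hgam := hV.gam_pos
  have hgam' := hV.gam_le
  have hw : 0 < sg / 100 * (gam / 40000) := by positivity
  have hw' : sg / 100 * (gam / 40000) ≤ sg / 1000000 := by
    have : gam / 40000 ≤ 1 / 10000 := by linarith
    calc sg / 100 * (gam / 40000) ≤ sg / 100 * (1 / 10000) :=
          mul_le_mul_of_nonneg_left this (by positivity)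
      _ = sg / 1000000 := by ring
  have hu := hV.last_u
  have hv := (hV.top_v (Fin.last (n + 1))).1
  cases s
  · -- left helper
    refine ⟨⟨by simp, Or.inl trivial⟩, ?_, ?_⟩
    · intro h
      rw [Q_hjf hV] at h
      have := congrArg Prod.fst h
      simp only at this
      linarith
    · -- certificate 2
      have c2 : ∀ x y : Vx n m, (∀ z, (z = x ∨ z = y) → Gad j z ∨ z = .hj j true ∨
          (∃ i, z = .top i) ∨ ∃ s, z = .jam j s) → ∃ c, 0 < aff c (Q (.hj j false)) ∧
          aff c (Q (.top (Fin.last (n + 1)))) ≤ aff c (Q (.hj j false)) ∧ aff c (Q x) ≤ 0 ∧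
          aff c (Q y) ≤ 0 := by
        intro x y h
        have key : ∀ z, (Gad j z ∨ z = .hj j true ∨ (∃ i, z = .top i) ∨ ∃ s, z = .jam j s) →
            aff (-(7 / 4 * sg), -1, -2) (Q z) ≤ 0 := by
          rintro z (hz | rfl | ⟨i, rfl⟩ | ⟨s, rfl⟩)
          · rw [Q_gad hV hz]
            obtain ⟨hy1, hy2⟩ := yc_bounds hV hz
            obtain ⟨hx1, hx2⟩ := xc_bounds hV hz
            have hY : 0 < yc T S z := by linarith
            have e : aff (-(7 / 4 * sg), -1, -2) (piP (sg / 100) (xc T gam S z) (yc T S z)) =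
                sg / 100 * ((xc T gam S z + 2 - 175 * yc T S z) / yc T S z) := by
              simp only [aff, piP]
              field_simp
              ring
            rw [e]
            apply mul_nonpos_of_nonneg_of_nonpos (by positivity)
            apply div_nonpos_of_nonpos_of_nonneg _ hY.le
            linarith
          · rw [Q_hjt hV]; simp only [aff]; linarith
          · have h1 := (abs_le.1 (hV.top_u i)).1
            have h2 := (hV.top_v i).1
            simp only [aff]; linarith
          · cases s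
            · rw [Q_jl hV]; simp only [aff]; linarith
            · rw [Q_jr hV]; simp only [aff]; linarith
        refine ⟨(-(7 / 4 * sg), -1, -2), ?_, ?_, key x (h x (Or.inl rfl)), key y (h y (Or.inr rfl))⟩
        · rw [Q_hjf hV]; simp only [aff]; nlinarith
        · rw [Q_hjf hV]; simp only [aff]; nlinarith
      -- special vertices
      have spec : ∀ x y : Vx n m, (Gr T).Adj x y → (Gad j x ∨ x = .hj j true) →
          ∀ z, (z = x ∨ z = y) → Gad j z ∨ z = .hj j true ∨ (∃ i, z = .top i) ∨
            ∃ s, z = .jam j s := by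
        intro x y hxy hx z hz
        rcases hz with rfl | rfl
        · tauto
        · rcases hx with hx | rfl
          · rcases adj_gad hx hxy with h | ⟨s, h⟩ | ⟨k, i, -, h, -⟩
            · exact Or.inl h
            · exact Or.inr (Or.inr (Or.inr ⟨s, h⟩))
            · exact Or.inr (Or.inr (Or.inl ⟨i, h⟩))
          · rcases adj_hjt hxy with ⟨i, h⟩ | h
            · exact Or.inr (Or.inr (Or.inl ⟨i, h⟩))
            · exact Or.inr (Or.inr (Or.inr ⟨false, h⟩))
      intro x y hxy hx hy
      by_cases h1 : Gad j x ∨ x = .hj j true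
      · exact c2 x y (spec x y hxy h1)
      by_cases h2 : Gad j y ∨ y = .hj j true
      · refine c2 x y (fun z hz => spec y x hxy.symm h2 z hz.symm)
      push Not at h1 h2
      refine ⟨(-(mu * (sg / 100 * (gam / 40000))), -mu, -1), ?_, ?_, ?_, ?_⟩
      · rw [Q_hjf hV]; simp only [aff]; nlinarith
      · rw [Q_hjf hV]; simp only [aff]; nlinarith
      · have := mu_nonneg hV h1.1 h1.2 hx
        simp only [aff]; linarith
      · have := mu_nonneg hV h2.1 h2.2 hy
        simp only [aff]; linarith
  · -- right helper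
    refine ⟨⟨by simp, Or.inl trivial⟩, ?_, ?_⟩
    · intro h
      rw [Q_hjt hV] at h
      have := congrArg Prod.fst h
      simp only at this
      linarith
    · intro x y hxy hx hy
      have key : ∀ z, z ≠ .hj j true → aff (-(sg / 8), 0, -1) (Q z) ≤ 0 := by
        intro z hz
        by_cases hg : Gad j z
        · rw [Q_gad hV hg]
          obtain ⟨hy1, hy2⟩ := yc_bounds hV hg
          have hY : 0 < yc T S z := by linarith
          simp only [aff, piP]
          have : sg / 100 / yc T S z ≤ sg / 100 := div_le_self (by positivity) hy1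
          linarith
        · have := v_nonneg hV hg hz
          simp only [aff]; linarith
      refine ⟨(-(sg / 8), 0, -1), ?_, ?_, key x hx, key y hy⟩
      · rw [Q_hjt hV]; simp only [aff]; linarith
      · rw [Q_hjt hV]; simp only [aff]; linarith

theorem adj_hjf {z : Vx n m} (h : (Gr T).Adj (.hj j false) z) : (∃ i, z = .top i) ∨
    z = .jam j true ∨ ∃ j' s, j < j' ∧ z = .jam j' s := by
  obtain ⟨-, h⟩ := h
  cases z <;> simp_all [adj0]

theorem hjo : HjoStmt := by
  intro n m T j gam sg mu S Q hV
  have hmu := hV.mu_pos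
  have hmu' := hV.mu_le
  have hsg := hV.sg_pos
  have hsg' := hV.sg_le
  have hgam := hV.gam_pos
  have hgam' := hV.gam_le
  obtain ⟨w, hw⟩ : ∃ w, w = sg / 100 * (gam / 40000) := ⟨_, rfl⟩
  have hw0 : 0 < w := by rw [hw]; positivity
  have hw1 : w ≤ sg / 1000000 := by
    have : gam / 40000 ≤ 1 / 10000 := by linarith
    rw [hw]
    calc sg / 100 * (gam / 40000) ≤ sg / 100 * (1 / 10000) :=
          mul_le_mul_of_nonneg_left this (by positivity)
      _ = sg / 1000000 := by ring
  have qjl : Q (.jam j false) = (-w, 0) := by rw [Q_jl hV, hw]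
  have qjr : Q (.jam j true) = (w, 0) := by rw [Q_jr hV, hw]
  have hms : 0 < mu * sg := by positivity
  have hms' : mu * sg ≤ sg / 200 := by nlinarith
  have top1 : ∀ i, -1 ≤ (Q (.top i)).1 ∧ (Q (.top i)).1 ≤ 1 ∧ 24 / 25 ≤ (Q (.top i)).2 :=
    fun i => ⟨(abs_le.1 (hV.top_u i)).1, (abs_le.1 (hV.top_u i)).2, (hV.top_v i).1⟩
  have farR : ∀ j' s, j < j' → 0 < (Q (.jam j' s)).1 ∧ 0 < (Q (.jam j' s)).2 ∧
      50 * (Q (.jam j' s)).2 ≤ (Q (.jam j' s)).1 ∧ 1000 * sg ≤ (Q (.jam j' s)).1 := by
    intro j' s h
    have h1 := hV.far_r (.jam j' s) j' rfl h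
    have h2 := hV.far_v (.jam j' s) j' rfl h.ne'
    have h3 := hV.far_50 (.jam j' s) j' rfl h.ne'
    have h4 := (hV.far_u (.jam j' s) j' rfl h.ne').1
    rw [abs_of_pos h1] at h3 h4
    exact ⟨h1, h2, h3, h4⟩
  -- the functional for the targets on the left
  have left : ∀ (s : Bool) (z : Vx n m), ((∃ i, z = .hel i) ∨ ∃ j', j' < j ∧ dr z = some j') →
      OutCone (Gr T) Q (.hj j s) z := by
    intro s z hz
    have hz' : 2 * sg < -(Q z).1 - 2 * (Q z).2 := by
      rcases hz with ⟨i, rfl⟩ | ⟨j', h1, h2⟩
      · have a1 := (hV.hel_u i).2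
        have a2 := (hV.hel_v i).2
        linarith
      · have b1 := hV.far_l z j' h2 h1
        have b3 := hV.far_50 z j' h2 h1.ne
        have b4 := (hV.far_u z j' h2 h1.ne).1
        rw [abs_of_neg b1] at b3 b4
        linarith
    cases s
    · refine ⟨(-(2 * sg) + 2 * (mu * sg), -1, -2), ?_, ?_, ?_⟩
      · rw [Q_hjf hV]; simp only [aff]; ring
      · simp only [aff]; linarith
      · intro x hx
        rcases adj_hjf hx with ⟨i, rfl⟩ | rfl | ⟨j', s, h, rfl⟩
        · have := top1 i
          simp only [aff]; linarith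
        · rw [qjr]; simp only [aff]; linarith
        · have := farR j' s h
          simp only [aff]; linarith
    · refine ⟨(-(3 / 2 * sg), -1, -2), ?_, ?_, ?_⟩
      · rw [Q_hjt hV]; simp only [aff]; ring
      · simp only [aff]; linarith
      · intro x hx
        rcases adj_hjt hx with ⟨i, rfl⟩ | rfl
        · have := top1 i
          simp only [aff]; linarith
        · rw [qjl]; simp only [aff]; linarith
  -- low functional of the left helper
  have lowF : ∀ z, 0 < aff (w * mu * sg, -(mu * sg), -(w + 2 * sg)) (Q z) →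
      OutCone (Gr T) Q (.hj j false) z := by
    intro z hz
    refine ⟨_, ?_, hz, ?_⟩
    · rw [Q_hjf hV]; simp only [aff]; ring
    · intro x hx
      rcases adj_hjf hx with ⟨i, rfl⟩ | rfl | ⟨j', s, h, rfl⟩
      · obtain ⟨a, b, c⟩ := top1 i
        simp only [aff]
        have e1 : w * mu * sg ≤ mu * sg * 1 := by
          have : w ≤ 1 := by linarith
          nlinarith
        have e2 : -(mu * sg) * (Q (.top i)).1 ≤ mu * sg * 1 := by nlinarith
        have e3 : (w + 2 * sg) * (24 / 25) ≤ (w + 2 * sg) * (Q (.top i)).2 :=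
          mul_le_mul_of_nonneg_left c (by positivity)
        nlinarith
      · rw [qjr]; simp only [aff]; nlinarith
      · obtain ⟨a, b, c, d⟩ := farR j' s h
        simp only [aff]
        have e1 : w * (mu * sg) ≤ (Q (.jam j' s)).1 * (mu * sg) := by
          apply mul_le_mul_of_nonneg_right _ hms.le
          linarith
        have e2 : 0 < (w + 2 * sg) * (Q (.jam j' s)).2 := by positivity
        nlinarith
  have lowT : ∀ z, 0 < aff (w * (sg / 4), sg / 4, -(sg - w)) (Q z) →
      OutCone (Gr T) Q (.hj j true) z := by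
    intro z hz
    refine ⟨_, ?_, hz, ?_⟩
    · rw [Q_hjt hV]; simp only [aff]; ring
    · intro x hx
      rcases adj_hjt hx with ⟨i, rfl⟩ | rfl
      · obtain ⟨a, b, c⟩ := top1 i
        simp only [aff]
        have e1 : (sg - w) * (24 / 25) ≤ (sg - w) * (Q (.top i)).2 :=
          mul_le_mul_of_nonneg_left c (by linarith)
        have e2 : sg / 4 * (Q (.top i)).1 ≤ sg / 4 * 1 :=
          mul_le_mul_of_nonneg_left b (by positivity)
        have e3 : w * (sg / 4) ≤ 1 / 100 * (sg / 4) :=
          mul_le_mul_of_nonneg_right (by linarith) (by positivity)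
        nlinarith
      · rw [qjl]; simp only [aff]; nlinarith
  refine ⟨?_, ?_, ?_, ?_, ?_⟩
  · intro s
    cases s
    · apply lowF
      rw [qjl]; simp only [aff]
      have : 0 < w * (mu * sg) := by positivity
      nlinarith
    · apply lowT
      rw [qjr]; simp only [aff]
      have : 0 < w * sg := by positivity
      nlinarith
  · apply lowF
    rw [Q_hjt hV]; simp only [aff]
    have e1 : 0 < w * (mu * sg) := by positivity
    have e2 : 0 < mu * sg * sg := by positivity
    have e3 : 0 < (w + 2 * sg) * (sg / 4) := by positivity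
    nlinarith
  · intro s i
    exact left s _ (Or.inl ⟨i, rfl⟩)
  · intro s j' s' h
    exact ⟨left s _ (Or.inr ⟨j', h, rfl⟩), left s _ (Or.inr ⟨j', h, rfl⟩)⟩
  · intro j' s' h
    apply lowT
    obtain ⟨a, b, c, d⟩ := farR j' s' h
    simp only [aff]
    have e1 : 0 < w * (sg / 4) := by positivity
    have e2 : (sg - w) * (Q (.jam j' s')).2 ≤ sg * (Q (.jam j' s')).2 :=
      mul_le_mul_of_nonneg_right (by linarith) b.le
    have e3 : sg * (50 * (Q (.jam j' s')).2) ≤ sg * (Q (.jam j' s')).1 :=
      mul_le_mul_of_nonneg_left c hsg.le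
    nlinarith

end Pool.Agent.SO.H88
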