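import Pool.Agent.Helper88_SO.Tools

/-!
# Module OUTER
-/

namespace Pool.Agent.SO.H88

/-- tangent vertex -/
theorem exists_tangent {V : Type} [Finite V] [Nonempty V] (P : V → Pt) (w : Pt)
    (hw : w ∉ convexHull ℝ (Set.range P))
    (hgp : ∀ x y, x ≠ y → ori w (P x) (P y) ≠ 0) :
    ∃ u, ∀ x, x ≠ u → ori w (P u) (P x) < 0 := by
  let r : V → V → Prop := fun x y => 0 < ori w (P y) (P x)
  have htrans : ∀ x y z, r x y → r y z → r x z := by
    intro x y z h1 h2
    by_contra h3
    have hxz : x ≠ z := by
      rintro rfl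
      have : ori w (P x) (P y) = -ori w (P y) (P x) := ori_swap _ _ _
      simp only [r] at h1 h2
      linarith
    have h4 : ori w (P z) (P x) < 0 := lt_of_le_of_ne (not_lt.1 h3) (hgp z x hxz.symm)
    apply hw
    have h5 := mem_triangle (x := P z) (y := P y) (z := P x) (w := w)
      (by rw [ori_cyc]; exact h2)
      (by rw [ori_cyc]; exact h1)
      (by rw [ori_cyc, ori_swap]; linarith)
    exact convexHull_mono (by
      intro y' hy'
      simp only [Set.mem_insert_iff, Set.mem_singleton_iff] at hy'
      rcases hy' with rfl | rfl | rfl <;> exact ⟨_, rfl⟩) h5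
  have hirr : ∀ x, ¬ r x x := by
    intro x h
    simp only [r, ori_self2] at h
    exact lt_irrefl _ h
  have : IsTrans V r := ⟨htrans⟩
  have : Std.Irrefl r := ⟨hirr⟩
  have hwf : WellFounded r := Finite.wellFounded_of_trans_of_irrefl r
  obtain ⟨u, -, hu⟩ := hwf.has_min Set.univ Set.univ_nonempty
  refine ⟨u, fun x hx => ?_⟩
  have h1 := hu x trivial
  exact lt_of_le_of_ne (not_lt.1 h1) (hgp u x hx.symm)

theorem sees_tangent {V : Type} (P : V → Pt) (w : Pt) (C : Set Pt)
    (hC : C ⊆ convexHull ℝ (Set.range P)) (hP : ∀ v, P v ∉ C) {u : V}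
    (hu : ∀ x, x ≠ u → ori w (P u) (P x) < 0) : Sees C w (P u) := by
  have hD : convexHull ℝ (Set.range P) ⊆ {y | y = P u ∨ ori w (P u) y < 0} := by
    apply convexHull_min
    · rintro _ ⟨x, rfl⟩
      by_cases hx : x = u
      · left; rw [hx]
      · exact Or.inr (hu x hx)
    · intro a ha b hb s t hs ht hst
      have e0 : ori w (P u) (P u) = 0 := ori_self2 _ _
      rcases ha with rfl | ha
      · rcases hb with rfl | hb
        · left; rw [← add_smul, hst, one_smul]
        · rcases ht.lt_or_eq with ht | ht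
          · right
            rw [ori_aff _ _ _ _ _ _ hst, e0]
            nlinarith
          · left
            rw [← ht] at hst ⊢
            rw [zero_smul, add_zero]
            rw [add_zero] at hst
            rw [hst, one_smul]
      · rcases hs.lt_or_eq with hs | hs
        · right
          rw [ori_aff _ _ _ _ _ _ hst]
          have hb' : ori w (P u) b ≤ 0 := by
            rcases hb with rfl | hb
            · rw [e0]
            · exact hb.le
          nlinarith
        · rw [← hs] at hst ⊢
          rw [zero_add] at hst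
          rw [hst, zero_smul, one_smul, zero_add]
          exact hb
  unfold Sees
  rw [Set.eq_empty_iff_forall_notMem]
  rintro y ⟨⟨s, t, hs, ht, hst, rfl⟩, hyC⟩
  have h1 := hD (hC hyC)
  rcases h1 with h1 | h1
  · rw [h1] at hyC
    exact hP u hyC
  · rw [ori_aff _ _ _ _ _ _ hst, ori_self3, ori_self2] at h1
    linarith

theorem conv_eq {V : Type} [Finite V] [Nonempty V] (P₁ P₂ : V → Pt) (C : Set Pt)
    (h1 : C ⊆ convexHull ℝ (Set.range P₁)) (hP1 : ∀ v, P₁ v ∉ C)
    (hgp : ∀ v x y, x ≠ y → ori (P₂ v) (P₁ x) (P₁ y) ≠ 0)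
    (hns : ∀ u v, ¬ Sees C (P₂ v) (P₁ u)) :
    convexHull ℝ (Set.range P₂) ⊆ convexHull ℝ (Set.range P₁) := by
  apply convexHull_min _ (convex_convexHull ℝ _)
  rintro _ ⟨v, rfl⟩
  by_contra hv
  obtain ⟨u, hu⟩ := exists_tangent P₁ (P₂ v) hv (hgp v)
  exact hns u v (sees_tangent P₁ (P₂ v) C h1 hP1 hu)

theorem outer : OuterStmt := by
  intro V _ _ G ⟨C, hC, P, hrep⟩
  obtain ⟨hgp, hout, hadj⟩ := hrep
  have hconn : IsPreconnected C := hC.2.1.isPreconnected
  have hr1 : Represents C G (fun v => P (Sum.inl v)) := by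
    refine ⟨⟨fun a b h => Sum.inl_injective (hgp.1 h), fun u v w a b c =>
      hgp.2 _ _ _ (fun h => a (Sum.inl_injective h)) (fun h => b (Sum.inl_injective h))
      (fun h => c (Sum.inl_injective h))⟩, fun v => hout _, fun u v huv => ?_⟩
    rw [← hadj _ _ (fun h => huv (Sum.inl_injective h))]
    simp
  have hr2 : Represents C G (fun v => P (Sum.inr v)) := by
    refine ⟨⟨fun a b h => Sum.inr_injective (hgp.1 h), fun u v w a b c =>
      hgp.2 _ _ _ (fun h => a (Sum.inr_injective h)) (fun h => b (Sum.inr_injective h))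
      (fun h => c (Sum.inr_injective h))⟩, fun v => hout _, fun u v huv => ?_⟩
    rw [← hadj _ _ (fun h => huv (Sum.inr_injective h))]
    simp
  by_cases h1 : C ⊆ convexHull ℝ (Set.range (fun v => P (Sum.inl v)))
  · by_cases h2 : C ⊆ convexHull ℝ (Set.range (fun v => P (Sum.inr v)))
    · exfalso
      have hns : ∀ u v, ¬ Sees C (P (Sum.inr v)) (P (Sum.inl u)) := by
        intro u v h
        have := (hadj (Sum.inr v) (Sum.inl u) (by simp)).2 h
        simp at this
      have e1 := conv_eq (fun v => P (Sum.inl v)) (fun v => P (Sum.inr v)) C h1 (fun v => hout _)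
        (fun v x y hxy => hgp.ori_ne (by simp) (fun h => hxy (Sum.inl_injective h)) (by simp))
        hns
      have e2 := conv_eq (fun v => P (Sum.inr v)) (fun v => P (Sum.inl v)) C h2 (fun v => hout _)
        (fun v x y hxy => hgp.ori_ne (by simp) (fun h => hxy (Sum.inr_injective h)) (by simp))
        (fun u v h => hns v u h.symm)
      have hcpt : IsCompact (convexHull ℝ (Set.range (fun v => P (Sum.inl v)))) :=
        (Set.finite_range _).isCompact_convexHull ℝ
      have hne : (convexHull ℝ (Set.range (fun v => P (Sum.inl v)))).Nonempty := by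
        rw [convexHull_nonempty_iff]
        exact Set.range_nonempty _
      obtain ⟨x, hx⟩ := hcpt.extremePoints_nonempty hne
      obtain ⟨a, ha⟩ := extremePoints_convexHull_subset hx
      rw [Set.Subset.antisymm e2 e1] at hx
      obtain ⟨b, hb⟩ := extremePoints_convexHull_subset hx
      have := hgp.1 (ha.trans hb.symm)
      simp at this
    · exact ⟨C, _, hconn, h2, hr2⟩
  · exact ⟨C, _, hconn, h1, hr1⟩

end Pool.Agent.SO.H88
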