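import Pool.Agent.Helper88_SO.Cyc

/-!
# Module SOUND
-/

namespace Pool.Agent.SO.H88

theorem el_injective {n m : ℕ} {T : Fin m → Fin 3 → Fin n} (hT : Distinct3 T) (j : Fin m) :
    Function.Injective (el T j) := by
  intro a b h
  have hv := congrArg Fin.val h
  by_cases ha : a.val < 3 <;> by_cases hb : b.val < 3
  · rw [el_lt T j a ha, el_lt T j b hb] at hv
    have := hT j (Fin.ext hv)
    simp only [Fin.mk.injEq] at this
    exact Fin.ext this
  · rw [el_lt T j a ha] at hv
    have h1 := (T j ⟨a.val, ha⟩).isLt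
    have hb' : b = 3 ∨ b = 4 := by omega
    rcases hb' with rfl | rfl
    · rw [el_three] at hv; omega
    · rw [el_four] at hv; omega
  · rw [el_lt T j b hb] at hv
    have h1 := (T j ⟨b.val, hb⟩).isLt
    have ha' : a = 3 ∨ a = 4 := by omega
    rcases ha' with rfl | rfl
    · rw [el_three] at hv; omega
    · rw [el_four] at hv; omega
  · have ha' : a = 3 ∨ a = 4 := by omega
    have hb' : b = 3 ∨ b = 4 := by omega
    rcases ha' with rfl | rfl <;> rcases hb' with rfl | rfl
    · rfl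
    · rw [el_three, el_four] at hv; omega
    · rw [el_three, el_four] at hv; omega
    · rfl

/-- orientation of triples from the order at a point -/
theorem triple_sign {V : Type} {P : V → Pt} (hC4 : Cp4Stmt) (hgp : GeneralPosition P)
    {Q Q' : Set V} (hQ : CP P Q) (hQ' : CP P Q') {d a b c a' b' c' : V} (hd : d ∈ Q)
    (ha : a ∈ Q) (hb : b ∈ Q) (hc : c ∈ Q) (hd' : d ∈ Q') (ha' : a' ∈ Q') (hb' : b' ∈ Q')
    (hc' : c' ∈ Q')
    (hab : 0 < ori (P d) (P a) (P b) * ori (P d) (P a') (P b'))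
    (hbc : 0 < ori (P d) (P b) (P c) * ori (P d) (P b') (P c'))
    (hac : 0 < ori (P d) (P a) (P c) * ori (P d) (P a') (P c')) :
    0 < ori (P a) (P b) (P c) * ori (P a') (P b') (P c') := by
  have key : ∀ x ∈ Q, ∀ y ∈ Q, ∀ z ∈ Q, 0 < ori (P d) (P x) (P y) → 0 < ori (P d) (P y) (P z) →
      0 < ori (P x) (P y) (P z) := fun x hx y hy z hz h1 h2 =>
    ((hC4 V P hgp Q hQ).1 d hd x hx y hy z hz h1 h2).2
  have key' : ∀ x ∈ Q', ∀ y ∈ Q', ∀ z ∈ Q', 0 < ori (P d) (P x) (P y) →
      0 < ori (P d) (P y) (P z) → 0 < ori (P x) (P y) (P z) := fun x hx y hy z hz h1 h2 =>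
    ((hC4 V P hgp Q' hQ').1 d hd' x hx y hy z hz h1 h2).2
  have sw : ∀ x y z : V, ori (P x) (P z) (P y) = -ori (P x) (P y) (P z) := fun x y z =>
    ori_swap _ _ _
  have cy : ∀ x y z : V, ori (P y) (P z) (P x) = ori (P x) (P y) (P z) := fun x y z =>
    ori_cyc _ _ _
  rcases pos_and_pos_or_neg_and_neg_of_mul_pos hab with ⟨h1, h1'⟩ | ⟨h1, h1'⟩ <;>
  rcases pos_and_pos_or_neg_and_neg_of_mul_pos hbc with ⟨h2, h2'⟩ | ⟨h2, h2'⟩
  · exact mul_pos (key a ha b hb c hc h1 h2) (key' a' ha' b' hb' c' hc' h1' h2')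
  · rcases pos_and_pos_or_neg_and_neg_of_mul_pos hac with ⟨h3, h3'⟩ | ⟨h3, h3'⟩
    · -- a < c < b
      have e := key a ha c hc b hb h3 (by rw [sw d b c]; linarith)
      have e' := key' a' ha' c' hc' b' hb' h3' (by rw [sw d b' c']; linarith)
      rw [sw a b c] at e
      rw [sw a' b' c'] at e'
      nlinarith
    · -- c < a < b
      have e := key c hc a ha b hb (by rw [sw d a c]; linarith) h1
      have e' := key' c' hc' a' ha' b' hb' (by rw [sw d a' c']; linarith) h1'
      rw [← cy c a b] at e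
      rw [← cy c' a' b'] at e'
      exact mul_pos e e'
  · rcases pos_and_pos_or_neg_and_neg_of_mul_pos hac with ⟨h3, h3'⟩ | ⟨h3, h3'⟩
    · -- b < a < c
      have e := key b hb a ha c hc (by rw [sw d a b]; linarith) h3
      have e' := key' b' hb' a' ha' c' hc' (by rw [sw d a' b']; linarith) h3'
      have f : ori (P b) (P a) (P c) = -ori (P a) (P b) (P c) := by unfold ori; ring
      have f' : ori (P b') (P a') (P c') = -ori (P a') (P b') (P c') := by unfold ori; ring
      rw [f] at e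
      rw [f'] at e'
      nlinarith
    · -- b < c < a
      have e := key b hb c hc a ha h2 (by rw [sw d a c]; linarith)
      have e' := key' b' hb' c' hc' a' ha' h2' (by rw [sw d a' c']; linarith)
      rw [cy a b c] at e
      rw [cy a' b' c'] at e'
      exact mul_pos e e'
  · -- c < b < a
    have e := key c hc b hb a ha (by rw [sw d b c]; linarith) (by rw [sw d a b]; linarith)
    have e' := key' c' hc' b' hb' a' ha' (by rw [sw d b' c']; linarith)
      (by rw [sw d a' b']; linarith)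
    have f : ori (P c) (P b) (P a) = -ori (P a) (P b) (P c) := by unfold ori; ring
    have f' : ori (P c') (P b') (P a') = -ori (P a') (P b') (P c') := by unfold ori; ring
    rw [f] at e
    rw [f'] at e'
    nlinarith

/-- the sets seen at a door -/
def QA {n m : ℕ} (j : Fin m) (z : Fin 5 → Vx n m) : Set (Vx n m) :=
  ({.jam j false, .jam j true} : Set (Vx n m)) ∪ Set.range z

theorem mem_QA {n m : ℕ} {j : Fin m} {z : Fin 5 → Vx n m} {x : Vx n m} :
    x ∈ QA j z ↔ (∃ s, x = .jam j s) ∨ ∃ k, x = z k := by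
  unfold QA
  simp only [Set.mem_union, Set.mem_insert_iff, Set.mem_singleton_iff, Set.mem_range]
  constructor
  · rintro ((h | h) | ⟨k, h⟩)
    · exact Or.inl ⟨_, h⟩
    · exact Or.inl ⟨_, h⟩
    · exact Or.inr ⟨k, h.symm⟩
  · rintro (⟨s, h⟩ | ⟨k, h⟩)
    · left
      cases s
      · exact Or.inl h
      · exact Or.inr h
    · exact Or.inr ⟨k, h.symm⟩

section

variable {n m : ℕ} {T : Fin m → Fin 3 → Fin n}

theorem cliqueA (j : Fin m) :
    ∀ p ∈ QA j (fun k => Vx.top (el T j k)), ∀ q ∈ QA j (fun k => Vx.top (el T j k)),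
      p ≠ q → (Gr T).Adj p q := by
  intro p hp q hq hpq
  rw [mem_QA] at hp hq
  rcases hp with ⟨s, rfl⟩ | ⟨k, rfl⟩ <;> rcases hq with ⟨s', rfl⟩ | ⟨k', rfl⟩
  · refine ⟨hpq, Or.inl ?_⟩
    simp only [adj0]
    right
    rintro rfl
    exact hpq rfl
  · exact ⟨by simp, Or.inr trivial⟩
  · exact ⟨by simp, Or.inl trivial⟩
  · refine ⟨hpq, Or.inl ?_⟩
    simp only [adj0]
    intro h
    exact hpq (by simp [h])

theorem cliqueB (j : Fin m) :
    ∀ p ∈ QA j (fun k => (Vx.pr j k : Vx n m)), ∀ q ∈ QA j (fun k => (Vx.pr j k : Vx n m)),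
      p ≠ q → (Gr T).Adj p q := by
  intro p hp q hq hpq
  rw [mem_QA] at hp hq
  rcases hp with ⟨s, rfl⟩ | ⟨k, rfl⟩ <;> rcases hq with ⟨s', rfl⟩ | ⟨k', rfl⟩
  · refine ⟨hpq, Or.inl ?_⟩
    simp only [adj0]
    right
    rintro rfl
    exact hpq rfl
  · exact ⟨by simp, Or.inr rfl⟩
  · exact ⟨by simp, Or.inl rfl⟩
  · refine ⟨hpq, Or.inl ?_⟩
    simp only [adj0]
    refine ⟨trivial, ?_⟩
    rintro rfl
    exact hpq rfl

theorem cpTop {C : Set Pt} {P : Vx n m → Pt} (hW : CpwStmt) (hR : Rep C (Gr T) P) :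
    CP P (Set.range Vx.top) := by
  rintro x hx y hy z hz _ ⟨i, rfl⟩
  refine hW _ _ C P hR (Set.range Vx.top) ?_ (.hel i) ?_ (.top i) ⟨i, rfl⟩ ?_ ?_ x hx y hy z hz
  · rintro _ ⟨a, rfl⟩ _ ⟨b, rfl⟩ h
    exact ⟨h, Or.inl (by simpa [adj0] using h)⟩
  · simp
  · simp [Gr, adj0]
  · rintro _ ⟨a, rfl⟩ h
    exact ⟨by simp, Or.inl (by simp only [adj0]; rintro rfl; exact h rfl)⟩

theorem cpA {C : Set Pt} {P : Vx n m → Pt} (hW : CpwStmt) (hR : Rep C (Gr T) P)
    (j : Fin m) : CP P (QA j (fun k => Vx.top (el T j k))) := by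
  have hcl := cliqueA (T := T) j
  intro x hx y hy z hz w hw
  have hw' := hw
  rw [mem_QA] at hw'
  rcases hw' with ⟨s, rfl⟩ | ⟨k, rfl⟩
  · refine hW _ _ C P hR _ hcl (.hj j s) ?_ (.jam j s) hw ?_ ?_ x hx y hy z hz
    · rw [mem_QA]; simp
    · cases s <;> simp [Gr, adj0]
    · intro q hq hne
      rw [mem_QA] at hq
      rcases hq with ⟨s', rfl⟩ | ⟨k', rfl⟩
      · cases s <;> cases s' <;> simp_all [Gr, adj0]
      · cases s <;> simp [Gr, adj0]
  · refine hW _ _ C P hR _ hcl (.hel (el T j k)) ?_ (.top (el T j k)) hw ?_ ?_ x hx y hy z hz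
    · rw [mem_QA]; simp
    · simp [Gr, adj0]
    · intro q hq hne
      rw [mem_QA] at hq
      rcases hq with ⟨s', rfl⟩ | ⟨k', rfl⟩
      · exact ⟨by simp, Or.inl trivial⟩
      · exact ⟨by simp, Or.inl (by
          simp only [adj0]; intro h; exact hne (by rw [h]))⟩

theorem cpB {C : Set Pt} {P : Vx n m → Pt} (hW : CpwStmt) (hR : Rep C (Gr T) P)
    (j : Fin m) : CP P (QA j (fun k => Vx.pr j k)) := by
  have hcl := cliqueB (T := T) j
  intro x hx y hy z hz w hw
  have hw' := hw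
  rw [mem_QA] at hw'
  rcases hw' with ⟨s, rfl⟩ | ⟨k, rfl⟩
  · refine hW _ _ C P hR _ hcl (.hd j s) ?_ (.jam j s) hw ?_ ?_ x hx y hy z hz
    · rw [mem_QA]; simp
    · simp [Gr, adj0]
    · intro q hq hne
      rw [mem_QA] at hq
      rcases hq with ⟨s', rfl⟩ | ⟨k', rfl⟩
      · cases s <;> cases s' <;> simp_all [Gr, adj0]
      · simp [Gr, adj0]
  · refine hW _ _ C P hR _ hcl (.hc j k) ?_ (.pr j k) hw ?_ ?_ x hx y hy z hz
    · rw [mem_QA]; simp
    · simp [Gr, adj0]
    · intro q hq hne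
      rw [mem_QA] at hq
      rcases hq with ⟨s', rfl⟩ | ⟨k', rfl⟩
      · exact ⟨by simp, Or.inl rfl⟩
      · exact ⟨by simp, Or.inl (by
          simp only [adj0]; refine ⟨trivial, ?_⟩; rintro rfl; exact hne rfl)⟩

theorem adj_pr_top (hT : Distinct3 T) (j : Fin m) (i k : Fin 5) :
    (Gr T).Adj (.pr j i) (.top (el T j k)) ↔ i = k := by
  simp only [Gr, adj0, ne_eq, reduceCtorEq, not_false_eq_true, true_and, or_false]
  constructor
  · intro h; exact el_injective hT j h
  · rintro rfl; rfl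

theorem adj_comm' (u v : Vx n m) : (Gr T).Adj u v ↔ (Gr T).Adj v u := (Gr T).adj_comm u v

/-- both families have the same order at a jamb -/
theorem same_order {C : Set Pt} {P : Vx n m → Pt} (hW : CpwStmt)
    (hD : DoorStmt) (hSa : SameStmt) (hOp : OppStmt) (hR : Rep C (Gr T) P) (hT : Distinct3 T)
    (j : Fin m) : (∀ i k, i ≠ k → 0 < ori (P (.jam j false)) (P (.top (el T j i)))
      (P (.top (el T j k))) * ori (P (.jam j false)) (P (.pr j i)) (P (.pr j k))) ∧
    (∀ i k, 0 < ori (P (.jam j false)) (P (.jam j true)) (P (.pr j i)) *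
      ori (P (.jam j false)) (P (.jam j true)) (P (.pr j k))) := by
  have hinj := el_injective hT j
  have hjp : ∀ s k, (Gr T).Adj (.jam j s) (.pr j k) := fun s k => ⟨by simp, Or.inr rfl⟩
  have hjt : ∀ s i, (Gr T).Adj (.jam j s) (.top i) := fun s k => ⟨by simp, Or.inr trivial⟩
  have hpp : ∀ i k, i ≠ k → (Gr T).Adj (.pr j i) (.pr j k) := fun i k h =>
    ⟨by simp [h], Or.inl ⟨rfl, h⟩⟩
  have htt : ∀ i k : Fin 5, i ≠ k → (Gr T).Adj (.top (el T j i)) (.top (el T j k)) := fun i k h =>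
    ⟨by simpa using fun h' => h (hinj h'), Or.inl (fun h' => h (hinj h'))⟩
  -- the door edge in both cliques
  have d1 := hD _ _ C P hR (.jam j false) (.jam j true) (fun k => .top (el T j k))
    (fun k => .pr j k) (fun a b h => hinj (by simpa using h)) (by simp) (by simp)
    (cliqueA j) (cpA hW hR j) (by intro i; show _ ∉ QA j _; rw [mem_QA]; simp)
    (fun i => ⟨((adj_comm' _ _).1 (hjp _ _)), ((adj_comm' _ _).1 (hjp _ _)),
      (adj_pr_top hT j i i).2 rfl⟩)
    (fun i k h => by rw [adj_pr_top hT]; exact h)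
  have d2 := hD _ _ C P hR (.jam j false) (.jam j true) (fun k => .pr j k)
    (fun k => .top (el T j k)) (fun a b h => by simpa using h) (by simp) (by simp)
    (cliqueB j) (cpB hW hR j) (by intro i; show _ ∉ QA j _; rw [mem_QA]; simp)
    (fun i => ⟨((adj_comm' _ _).1 (hjt _ _)), ((adj_comm' _ _).1 (hjt _ _)),
      (adj_comm' _ _).1 ((adj_pr_top hT j i i).2 rfl)⟩)
    (fun i k h => by rw [adj_comm', adj_pr_top hT]; exact h.symm)
  refine ⟨?_, d2⟩
  have f1 : ∀ x : Pt, ori (P (.jam j true)) (P (.jam j false)) x =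
      -ori (P (.jam j false)) (P (.jam j true)) x := fun x => by unfold ori; ring
  -- constant signs
  have s1 : (∀ i, 0 < ori (P (.jam j false)) (P (.jam j true)) (P (.top (el T j i)))) ∨
      (∀ i, ori (P (.jam j false)) (P (.jam j true)) (P (.top (el T j i))) < 0) := by
    rcases pos_and_pos_or_neg_and_neg_of_mul_pos (d1 0 0) with ⟨h, -⟩ | ⟨h, -⟩
    · exact Or.inl (fun i => (pos_iff_pos_of_mul_pos (d1 0 i)).1 h)
    · exact Or.inr (fun i => (neg_iff_neg_of_mul_pos (d1 0 i)).1 h)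
  have s2 : (∀ i, 0 < ori (P (.jam j false)) (P (.jam j true)) (P (.pr j i))) ∨
      (∀ i, ori (P (.jam j false)) (P (.jam j true)) (P (.pr j i)) < 0) := by
    rcases pos_and_pos_or_neg_and_neg_of_mul_pos (d2 0 0) with ⟨h, -⟩ | ⟨h, -⟩
    · exact Or.inl (fun i => (pos_iff_pos_of_mul_pos (d2 0 i)).1 h)
    · exact Or.inr (fun i => (neg_iff_neg_of_mul_pos (d2 0 i)).1 h)
  have npt : ∀ i k, i ≠ k → ¬ (Gr T).Adj (.top (el T j i)) (.pr j k) := fun i k h => by
    rw [adj_comm', adj_pr_top hT]; exact h.symm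
  have apt : ∀ i, (Gr T).Adj (.top (el T j i)) (.pr j i) := fun i =>
    (adj_comm' _ _).1 ((adj_pr_top hT j i i).2 rfl)
  rcases s1 with s1 | s1 <;> rcases s2 with s2 | s2
  · exact (hSa _ _ C P hR (.jam j false) (P (.jam j true)) (fun k => .top (el T j k))
      (fun k => .pr j k) (fun i => hjt _ _) (fun i => hjp _ _) htt hpp apt npt s1 s2).elim
  · intro i k hik
    exact hOp _ _ C P hR (.jam j false) (.top (el T j i)) (.top (el T j k)) (.pr j i) (.pr j k)
      (P (.jam j true)) (hjt _ _) (hjt _ _) (hjp _ _) (hjp _ _) (htt i k hik) (apt k)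
      (hpp k i hik.symm) ((adj_comm' _ _).1 (apt i)) (npt i k hik) (npt k i hik.symm)
      (s1 i) (s1 k) (s2 i) (s2 k)
  · intro i k hik
    have := hOp _ _ C P hR (.jam j false) (.pr j i) (.pr j k) (.top (el T j i))
      (.top (el T j k)) (P (.jam j true)) (hjp _ _) (hjp _ _) (hjt _ _) (hjt _ _) (hpp i k hik)
      ((adj_comm' _ _).1 (apt k)) (htt k i hik.symm) (apt i)
      (fun h => npt k i hik.symm ((adj_comm' _ _).1 h))
      (fun h => npt i k hik ((adj_comm' _ _).1 h)) (s2 i) (s2 k) (s1 i) (s1 k)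
    rw [mul_comm]
    exact this
  · exact (hSa _ _ C P hR (.jam j true) (P (.jam j false)) (fun k => .top (el T j k))
      (fun k => .pr j k) (fun i => hjt _ _) (fun i => hjp _ _) htt hpp apt npt
      (fun i => by rw [f1]; linarith [s1 i]) (fun i => by rw [f1]; linarith [s2 i])).elim

theorem help_one {C : Set Pt} {P : Vx n m → Pt} (hW : CpwStmt) (hH : HelpStmt)
    (hR : Rep C (Gr T) P) (j : Fin m)
    (hs : ∀ i k, 0 < ori (P (.jam j false)) (P (.jam j true)) (P (.pr j i)) *
      ori (P (.jam j false)) (P (.jam j true)) (P (.pr j k)))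
    (t : Bool) (k l : Fin 5) (hk : k ≠ 1) (hk' : k ≠ kk t) (hl : l ≠ 1) (hl' : l ≠ kk t)
    (hkl : k ≠ l) :
    ¬ Cross (P (.pr j (kk t))) (P (.pr j 1)) (P (.pr j k)) (P (.pr j l)) := by
  have hsub : ∀ p ∈ ({.jam j false, .jam j true, .pr j (kk t), .pr j 1, .pr j k, .pr j l} :
      Set (Vx n m)), p ∈ QA j (fun k => Vx.pr j k) := by
    intro p hp
    rw [mem_QA]
    simp only [Set.mem_insert_iff, Set.mem_singleton_iff] at hp
    rcases hp with h | h | h | h | h | h
    · exact Or.inl ⟨_, h⟩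
    · exact Or.inl ⟨_, h⟩
    · exact Or.inr ⟨_, h⟩
    · exact Or.inr ⟨_, h⟩
    · exact Or.inr ⟨_, h⟩
    · exact Or.inr ⟨_, h⟩
  have h01 : kk t ≠ 1 := by cases t <;> simp [kk]
  have hkk : kk t = if t then 2 else 0 := rfl
  refine hH _ _ C P hR (.jam j false) (.jam j true) (.pr j (kk t)) (.pr j 1) (.pr j k) (.pr j l)
    (.ho j false t) (.ho j true t) ?_ ?_ ?_ ?_ ?_ ?_ ?_ ?_ ?_ ?_ ?_ ?_ ?_ ?_ ?_ ?_
  · simp [h01, hk.symm, hk'.symm, hl.symm, hl'.symm, hkl]
  · exact fun p hp q hq h => cliqueB j p (hsub p hp) q (hsub q hq) h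
  · exact fun x hx y hy z hz w hw =>
      cpB hW hR j x (hsub x hx) y (hsub y hy) z (hsub z hz) w (hsub w hw)
  · intro p hp q hq
    have hp' : ∃ i, p = .pr j i := by
      simp only [Set.mem_insert_iff, Set.mem_singleton_iff] at hp
      rcases hp with h | h | h | h <;> exact ⟨_, h⟩
    have hq' : ∃ i, q = .pr j i := by
      simp only [Set.mem_insert_iff, Set.mem_singleton_iff] at hq
      rcases hq with h | h | h | h <;> exact ⟨_, h⟩
    obtain ⟨i, rfl⟩ := hp'
    obtain ⟨i', rfl⟩ := hq'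
    exact hs i i'
  all_goals simp [Gr, adj0, hkk]
  all_goals first
    | (rw [← hkk]; exact ⟨hk, hk'⟩)
    | (rw [← hkk]; exact ⟨hl, hl'⟩)

theorem Cross.symm {p q r s : Pt} (h : Cross p q r s) : Cross r s p q := ⟨h.2, h.1⟩

/-- the middle element is between the two others in the order at the additional element `n` -/
theorem between {C : Set Pt} {P : Vx n m → Pt} (hW : CpwStmt) (hC4 : Cp4Stmt) (hD : DoorStmt)
    (hSa : SameStmt) (hOp : OppStmt) (hH : HelpStmt) (hR : Rep C (Gr T) P) (hT : Distinct3 T)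
    (j : Fin m) :
    0 < ori (P (.top (el T j 3))) (P (.top (el T j 0))) (P (.top (el T j 1))) *
      ori (P (.top (el T j 3))) (P (.top (el T j 1))) (P (.top (el T j 2))) := by
  obtain ⟨ho, hs⟩ := same_order hW hD hSa hOp hR hT j
  have h1 := help_one hW hH hR j hs false 2 3 (by simp) (by simp [kk]) (by simp) (by simp [kk])
    (by simp)
  have h2 := help_one hW hH hR j hs true 0 3 (by simp) (by simp [kk]) (by simp) (by simp [kk])
    (by simp)
  have hmem : ∀ k, (Vx.pr j k : Vx n m) ∈ QA j (fun k => Vx.pr j k) := fun k =>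
    mem_QA.2 (Or.inr ⟨k, rfl⟩)
  have hmemA : ∀ k, (Vx.top (el T j k) : Vx n m) ∈ QA j (fun k => Vx.top (el T j k)) := fun k =>
    mem_QA.2 (Or.inr ⟨k, rfl⟩)
  have hjB : (Vx.jam j false : Vx n m) ∈ QA j (fun k => Vx.pr j k) := mem_QA.2 (Or.inl ⟨_, rfl⟩)
  have hjA : (Vx.jam j false : Vx n m) ∈ QA j (fun k => Vx.top (el T j k)) :=
    mem_QA.2 (Or.inl ⟨_, rfl⟩)
  have h3 := (hC4 _ P hR.gp _ (cpB hW hR j)).2 (.pr j 0) (hmem 0) (.pr j 1) (hmem 1) (.pr j 2)
    (hmem 2) (.pr j 3) (hmem 3) (by simp) (by simp) (by simp) (by simp) (by simp) (by simp)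
  have k0 : kk false = 0 := rfl
  have k2 : kk true = 2 := rfl
  rw [k0] at h1
  rw [k2] at h2
  have h4 : Cross (P (.pr j 0)) (P (.pr j 2)) (P (.pr j 1)) (P (.pr j 3)) := by
    rcases h3 with h3 | h3 | h3
    · exact absurd h3 h1
    · exact h3
    · exfalso
      apply h2
      have h5 := Cross.symm h3
      refine ⟨?_, ?_⟩
      · have := h5.1
        have e1 : ∀ x, ori (P (.pr j 2)) (P (.pr j 1)) x = -ori (P (.pr j 1)) (P (.pr j 2)) x :=
          fun x => by unfold ori; ring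
        rw [e1, e1]
        linarith
      · have := h5.2
        linarith
  have sg : ∀ a b c : Fin 5, a ≠ b → b ≠ c → a ≠ c →
      0 < ori (P (.top (el T j a))) (P (.top (el T j b))) (P (.top (el T j c))) *
        ori (P (.pr j a)) (P (.pr j b)) (P (.pr j c)) := fun a b c hab hbc hac =>
    triple_sign hC4 hR.gp (cpA hW hR j) (cpB hW hR j) hjA (hmemA a) (hmemA b) (hmemA c) hjB
      (hmem a) (hmem b) (hmem c) (ho a b hab) (ho b c hbc) (ho a c hac)
  have g1 := sg 1 3 0 (by simp) (by simp) (by simp)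
  have g2 := sg 1 3 2 (by simp) (by simp) (by simp)
  have h5 := h4.2
  have c1 : ori (P (.top (el T j 3))) (P (.top (el T j 0))) (P (.top (el T j 1))) =
      ori (P (.top (el T j 1))) (P (.top (el T j 3))) (P (.top (el T j 0))) := by
    unfold ori; ring
  have c2 : ori (P (.top (el T j 3))) (P (.top (el T j 1))) (P (.top (el T j 2))) =
      -ori (P (.top (el T j 1))) (P (.top (el T j 3))) (P (.top (el T j 2))) := by
    unfold ori; ring
  rw [c1, c2]
  rcases pos_and_pos_or_neg_and_neg_of_mul_pos g1 with ⟨a1, a2⟩ | ⟨a1, a2⟩ <;>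
  rcases pos_and_pos_or_neg_and_neg_of_mul_pos g2 with ⟨b1, b2⟩ | ⟨b1, b2⟩
  · nlinarith
  · nlinarith
  · nlinarith
  · nlinarith

end

theorem sound (hO : OuterStmt) (hW : CpwStmt) (hC4 : Cp4Stmt) (hD : DoorStmt)
    (hSa : SameStmt) (hOp : OppStmt) (hH : HelpStmt) : SoundStmt := by
  classical
  intro n m T hT hrep
  have hne : Nonempty (Vx n m) := ⟨.top 0⟩
  obtain ⟨C, P, hR⟩ := hO (Vx n m) (Gr T) hrep
  have hbt := fun j => between hW hC4 hD hSa hOp hH hR hT j
  have hcp := cpTop hW hR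
  set N : Fin (n + 2) := ⟨n, by omega⟩ with hN
  let f : Fin n → Fin (n + 2) := fun i => ⟨i.val, by omega⟩
  have hfi : ∀ i i', f i = f i' → i = i' := fun i i' h => Fin.ext (by simpa [f] using h)
  have hfN : ∀ i, f i ≠ N := by
    intro i h
    have := congrArg Fin.val h
    simp only [f, hN] at this
    have := i.isLt
    omega
  let R : Fin n → Fin n → Prop := fun i i' => 0 < ori (P (.top N)) (P (.top (f i))) (P (.top (f i')))
  have htr : ∀ a b c, R a b → R b c → R a c := fun a b c h1 h2 =>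
    ((hC4 _ P hR.gp _ hcp).1 (.top N) ⟨_, rfl⟩ (.top (f a)) ⟨_, rfl⟩ (.top (f b)) ⟨_, rfl⟩
      (.top (f c)) ⟨_, rfl⟩ h1 h2).1
  have hirr : ∀ a, ¬ R a a := by
    intro a h
    simp only [R, ori_self2] at h
    exact lt_irrefl _ h
  have htot : ∀ a b, a ≠ b → R a b ∨ R b a := by
    intro a b hab
    have h1 : ori (P (.top N)) (P (.top (f a))) (P (.top (f b))) ≠ 0 := by
      apply hR.gp.ori_ne
      · intro h; exact hfN a (by simpa using h.symm)
      · intro h; exact hab (hfi a b (by simpa using h))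
      · intro h; exact hfN b (by simpa using h.symm)
    rcases lt_or_gt_of_ne h1 with h | h
    · right
      show 0 < ori _ _ _
      rw [ori_swap]
      linarith
    · exact Or.inl h
  let r : Fin n → ℤ := fun i => ((Finset.univ.filter (fun i' => R i' i)).card : ℤ)
  have hlt : ∀ a b, R a b → r a < r b := by
    intro a b h
    have : (Finset.univ.filter (fun i' => R i' a)).card <
        (Finset.univ.filter (fun i' => R i' b)).card := by
      apply Finset.card_lt_card
      constructor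
      · intro x hx
        simp only [Finset.mem_filter, Finset.mem_univ, true_and] at hx ⊢
        exact htr _ _ _ hx h
      · intro hsub
        have h1 : a ∈ Finset.univ.filter (fun i' => R i' b) := by
          simp only [Finset.mem_filter, Finset.mem_univ, true_and]; exact h
        have h2 := hsub h1
        simp only [Finset.mem_filter, Finset.mem_univ, true_and] at h2
        exact hirr _ h2
    exact Int.ofNat_lt.2 this
  refine ⟨r, ?_, ?_⟩
  · intro a b h
    by_contra hne'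
    rcases htot a b hne' with h1 | h1
    · have := hlt _ _ h1; omega
    · have := hlt _ _ h1; omega
  · intro j
    have e3 : el T j 3 = N := Fin.ext (by rw [el_three])
    have e0 : el T j 0 = f (T j 0) := Fin.ext (el_lt T j 0 (by simp))
    have e1 : el T j 1 = f (T j 1) := Fin.ext (el_lt T j 1 (by simp))
    have e2 : el T j 2 = f (T j 2) := Fin.ext (el_lt T j 2 (by simp))
    have h := hbt j
    rw [e3, e0, e1, e2] at h
    rcases pos_and_pos_or_neg_and_neg_of_mul_pos h with ⟨h1, h2⟩ | ⟨h1, h2⟩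
    · exact Or.inl ⟨hlt _ _ h1, hlt _ _ h2⟩
    · right
      refine ⟨hlt _ _ ?_, hlt _ _ ?_⟩
      · show 0 < ori _ _ _
        rw [ori_swap]
        linarith
      · show 0 < ori _ _ _
        rw [ori_swap]
        linarith

end Pool.Agent.SO.H88
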