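import Pool.Agent.Helper88_SO.Tools

/-!
# Modules TRI, CLIQUE, QUAD
-/

namespace Pool.Agent.SO.H88

theorem ori_cont (p q : Pt) : Continuous (fun r : Pt => ori p q r) := by
  unfold ori; fun_prop

theorem sees_not_mem {C : Set Pt} {p q : Pt} (h : Sees C p q) {s t : ℝ} (hs : 0 ≤ s) (ht : 0 ≤ t)
    (hst : s + t = 1) : s • p + t • q ∉ C := by
  intro hc
  have : s • p + t • q ∈ segment ℝ p q ∩ C := ⟨⟨s, t, hs, ht, hst, rfl⟩, hc⟩
  rw [h] at this
  exact this

/-- membership in a segment from orientations -/
theorem mem_seg_of {a b x : Pt} (hab : ori a b x = 0) (c : Pt) (h1 : 0 ≤ ori b c x)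
    (h2 : 0 ≤ ori c a x) (h3 : 0 < ori a b c) : x ∈ segment ℝ a b := by
  have hs := ori_sum a b c x
  have h4 : ori a b c = ori b c x + ori c a x := by linarith
  refine ⟨ori b c x / ori a b c, ori c a x / ori a b c, by positivity, by positivity, ?_, ?_⟩
  · field_simp; linarith
  · have hne := h3.ne'
    ext
    · simp only [Prod.fst_add, Prod.smul_fst, smul_eq_mul]
      field_simp
      have : ori b c x * a.1 + ori c a x * b.1 + ori a b x * c.1 = ori a b c * x.1 := by
        unfold ori; ring
      rw [hab] at this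
      linarith
    · simp only [Prod.snd_add, Prod.smul_snd, smul_eq_mul]
      field_simp
      have : ori b c x * a.2 + ori c a x * b.2 + ori a b x * c.2 = ori a b c * x.2 := by
        unfold ori; ring
      rw [hab] at this
      linarith

/-- orientations on a triangle -/
theorem ori_nonneg_of_mem {a b c x : Pt} (h3 : 0 < ori a b c)
    (hx : x ∈ convexHull ℝ ({a, b, c} : Set Pt)) :
    0 ≤ ori a b x ∧ 0 ≤ ori b c x ∧ 0 ≤ ori c a x := by
  have hconv : ∀ p q : Pt, Convex ℝ {r : Pt | 0 ≤ ori p q r} := by
    intro p q u hu v hv s t hs ht hst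
    simp only [Set.mem_ofPred_eq] at hu hv ⊢
    rw [ori_aff p q u v s t hst]
    positivity
  have key : ∀ p q : Pt, 0 ≤ ori p q a → 0 ≤ ori p q b → 0 ≤ ori p q c → 0 ≤ ori p q x := by
    intro p q ha hb hc
    have := convexHull_min (s := ({a, b, c} : Set Pt)) (t := {r : Pt | 0 ≤ ori p q r}) (by
      intro y hy
      simp only [Set.mem_insert_iff, Set.mem_singleton_iff] at hy
      rcases hy with rfl | rfl | rfl
      · exact ha
      · exact hb
      · exact hc) (hconv p q)
    exact this hx
  refine ⟨key _ _ ?_ ?_ ?_, key _ _ ?_ ?_ ?_, key _ _ ?_ ?_ ?_⟩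
  · rw [ori_self3]
  · rw [ori_self2]
  · exact h3.le
  · rw [ori_cyc]; exact h3.le
  · rw [ori_self3]
  · rw [ori_self2]
  · rw [ori_self2]
  · rw [← ori_cyc]; exact h3.le
  · rw [ori_self3]

theorem tri_mem {a b c x : Pt} (h3 : 0 < ori a b c) (h : 0 ≤ ori a b x) (h' : 0 ≤ ori b c x)
    (h'' : 0 ≤ ori c a x) : x ∈ convexHull ℝ ({a, b, c} : Set Pt) := by
  have hs := ori_sum a b c x
  have hw : x = (ori b c x / ori a b c) • a + (ori c a x / ori a b c) • b +
      (ori a b x / ori a b c) • c := by
    have hne := h3.ne'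
    ext
    · simp only [Prod.fst_add, Prod.smul_fst, smul_eq_mul]
      field_simp
      unfold ori; ring
    · simp only [Prod.snd_add, Prod.smul_snd, smul_eq_mul]
      field_simp
      unfold ori; ring
  have h := (convex_convexHull ℝ ({a, b, c} : Set Pt)).sum_mem
    (t := (Finset.univ : Finset (Fin 3))) (w := ![ori b c x / ori a b c, ori c a x / ori a b c,
    ori a b x / ori a b c]) (z := ![a, b, c])
    (by
      intro i _
      fin_cases i
      · exact div_nonneg h' h3.le
      · exact div_nonneg h'' h3.le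
      · exact div_nonneg h h3.le)
    (by
      rw [Fin.sum_univ_three]
      simp only [Matrix.cons_val_zero, Matrix.cons_val_one, Matrix.cons_val]
      field_simp
      linarith)
    (by
      intro i _
      fin_cases i <;> exact subset_convexHull ℝ _ (by simp))
  rw [Fin.sum_univ_three] at h
  simp only [Matrix.cons_val_zero, Matrix.cons_val_one, Matrix.cons_val] at h
  rw [← hw] at h
  exact h

theorem seg_of_mem {C : Set Pt} {a b x : Pt} (h : Sees C a b) (hx : x ∈ segment ℝ a b) : x ∉ C := by
  intro hc
  have : x ∈ segment ℝ a b ∩ C := ⟨hx, hc⟩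
  rw [h] at this
  exact this

/-- ccw version of TRI -/
theorem tri_ccw {C K : Set Pt} (hA : Amb C K) {p q r : Pt} (hp : p ∈ K) (hq : q ∈ K) (hr : r ∈ K)
    (hpq : Sees C p q) (hqr : Sees C q r) (hpr : Sees C p r) (h : 0 < ori p q r) :
    convexHull ℝ {p, q, r} ∩ C = ∅ := by
  by_contra hne
  obtain ⟨x, hx, hxC⟩ := Set.nonempty_iff_ne_empty.2 hne
  have hsub : convexHull ℝ ({p, q, r} : Set Pt) ⊆ K := by
    apply convexHull_min _ hA.conv
    intro y hy
    simp only [Set.mem_insert_iff, Set.mem_singleton_iff] at hy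
    rcases hy with rfl | rfl | rfl <;> assumption
  set O : Set Pt := {y | 0 < ori p q y ∧ 0 < ori q r y ∧ 0 < ori r p y} with hO
  set O' : Set Pt := {y | ori p q y < 0 ∨ ori q r y < 0 ∨ ori r p y < 0} with hO'
  have hOo : IsOpen O := by
    rw [hO]
    have := ori_cont
    exact (isOpen_lt continuous_const (ori_cont p q)).inter
      ((isOpen_lt continuous_const (ori_cont q r)).inter (isOpen_lt continuous_const (ori_cont r p)))
  have hOo' : IsOpen O' := by
    rw [hO']
    exact (isOpen_lt (ori_cont p q) continuous_const).union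
      ((isOpen_lt (ori_cont q r) continuous_const).union (isOpen_lt (ori_cont r p) continuous_const))
  have h2 : 0 < ori q r p := by rw [ori_cyc]; exact h
  have h3 : 0 < ori r p q := by rw [ori_cyc]; exact h2
  -- points of C in the closed triangle are in the open one
  have hin : ∀ y ∈ C, 0 ≤ ori p q y → 0 ≤ ori q r y → 0 ≤ ori r p y → y ∈ O := by
    intro y hy a b c
    refine ⟨lt_of_le_of_ne a ?_, lt_of_le_of_ne b ?_, lt_of_le_of_ne c ?_⟩
    · intro h0; exact seg_of_mem hpq (mem_seg_of h0.symm r b c h) hy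
    · intro h0; exact seg_of_mem hqr (mem_seg_of h0.symm p c a h2) hy
    · intro h0; exact seg_of_mem hpr.symm (mem_seg_of h0.symm q a b h3) hy
  have hcov : C ⊆ O ∪ O' := by
    intro y hy
    by_cases hy' : y ∈ O'
    · exact Or.inr hy'
    · left
      simp only [hO', Set.mem_ofPred_eq, not_or, not_lt] at hy'
      exact hin y hy hy'.1 hy'.2.1 hy'.2.2
  have hx3 := ori_nonneg_of_mem h hx
  have hxO : x ∈ O := hin x hxC hx3.1 hx3.2.1 hx3.2.2
  have hdisj : O ∩ O' = ∅ := by
    ext y
    simp only [hO, hO', Set.mem_inter_iff, Set.mem_ofPred_eq, Set.mem_empty_iff_false, iff_false]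
    rintro ⟨⟨a, b, c⟩, d⟩
    rcases d with d | d | d <;> linarith
  have hCO : C ⊆ O := by
    by_contra hnot
    obtain ⟨y, hyC, hyO⟩ := Set.not_subset.1 hnot
    have hyO' : y ∈ O' := (hcov hyC).resolve_left hyO
    obtain ⟨z, -, hz⟩ := hA.conn O O' hOo hOo' hcov ⟨x, hxC, hxO⟩ ⟨y, hyC, hyO'⟩
    rw [hdisj] at hz
    exact hz
  exact hA.nsub (fun y hy => hsub (tri_mem h (hCO hy).1.le (hCO hy).2.1.le (hCO hy).2.2.le))

theorem convexHull_pair_or {p q r : Pt} (h : ori p q r = 0) {x : Pt}
    (hx : x ∈ convexHull ℝ ({p, q, r} : Set Pt)) :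
    x ∈ segment ℝ p q ∨ x ∈ segment ℝ q r ∨ x ∈ segment ℝ p r := by
  have hc := (collinear_iff_ori p q r).2 h
  have hcase := hc.wbtw_or_wbtw_or_wbtw
  have hsub : ∀ a b c : Pt, Wbtw ℝ a b c → ∀ y ∈ convexHull ℝ ({a, b, c} : Set Pt),
      y ∈ segment ℝ a c := by
    intro a b c hw y hy
    have : convexHull ℝ ({a, b, c} : Set Pt) ⊆ segment ℝ a c := by
      apply convexHull_min _ (convex_segment a c)
      intro z hz
      simp only [Set.mem_insert_iff, Set.mem_singleton_iff] at hz
      rcases hz with rfl | rfl | rfl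
      · exact left_mem_segment ℝ _ _
      · exact mem_segment_iff_wbtw.2 hw
      · exact right_mem_segment ℝ _ _
    exact this hy
  rcases hcase with hw | hw | hw
  · exact Or.inr (Or.inr (hsub _ _ _ hw x hx))
  · left
    have : ({p, q, r} : Set Pt) = {q, r, p} := by ext y; simp; tauto
    rw [this] at hx
    rw [segment_symm]
    exact hsub _ _ _ hw x hx
  · right; left
    have : ({p, q, r} : Set Pt) = {r, p, q} := by ext y; simp; tauto
    rw [this] at hx
    rw [segment_symm]
    exact hsub _ _ _ hw x hx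

theorem tri : TriStmt := by
  intro C K hA p hp q hq r hr hpq hqr hpr
  rcases lt_trichotomy (ori p q r) 0 with h | h | h
  · have h' : 0 < ori p r q := by rw [ori_swap]; linarith
    have : ({p, q, r} : Set Pt) = {p, r, q} := by ext y; simp; tauto
    rw [this]
    exact tri_ccw hA hp hr hq hpr hqr.symm hpq h'
  · by_contra hne
    obtain ⟨x, hx, hxC⟩ := Set.nonempty_iff_ne_empty.2 hne
    rcases convexHull_pair_or h hx with h1 | h1 | h1
    · exact seg_of_mem hpq h1 hxC
    · exact seg_of_mem hqr h1 hxC
    · exact seg_of_mem hpr h1 hxC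
  · exact tri_ccw hA hp hq hr hpq hqr hpr h

theorem clique (hT : TriStmt) : CliqueStmt := by
  intro C K hA Q hQ hsee
  by_contra hne
  obtain ⟨x, hx, hxC⟩ := Set.nonempty_iff_ne_empty.2 hne
  rw [convexHull_eq_union] at hx
  simp only [Set.mem_iUnion] at hx
  obtain ⟨t, hts, hai, hxt⟩ := hx
  have hcard : t.card ≤ 3 := by
    have h1 := hai.card_le_finrank_succ.trans (Nat.add_le_add_right (Submodule.finrank_le _) 1)
    have h3 : Module.finrank ℝ (ℝ × ℝ) = 2 := by simp
    rw [Fintype.card_coe, h3] at h1
    exact h1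
  have key : ∀ a ∈ t, ∀ b ∈ t, ∀ c ∈ t, ((t : Set Pt) ⊆ {a, b, c}) → False := by
    intro a ha b hb c hc hsub
    have h1 := hT C K hA a (hQ (hts ha)) b (hQ (hts hb)) c (hQ (hts hc))
      (hsee a (hts ha) b (hts hb)) (hsee b (hts hb) c (hts hc)) (hsee a (hts ha) c (hts hc))
    have h2 : x ∈ convexHull ℝ ({a, b, c} : Set Pt) ∩ C := ⟨convexHull_mono hsub hxt, hxC⟩
    rw [h1] at h2
    exact h2
  have h4 : t.card = 0 ∨ t.card = 1 ∨ t.card = 2 ∨ t.card = 3 := by omega
  rcases h4 with h | h | h | h
  · rw [Finset.card_eq_zero] at h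
    subst h
    simp at hxt
  · obtain ⟨a, rfl⟩ := Finset.card_eq_one.1 h
    exact key a (by simp) a (by simp) a (by simp) (by simp)
  · obtain ⟨a, b, -, rfl⟩ := Finset.card_eq_two.1 h
    exact key a (by simp) b (by simp) b (by simp) (by simp)
  · obtain ⟨a, b, c, -, -, -, rfl⟩ := Finset.card_eq_three.1 h
    exact key a (by simp) b (by simp) c (by simp) (by simp)

theorem conv_tri {K : Set Pt} (hK : Convex ℝ K) {p q r : Pt} (hp : p ∈ K) (hq : q ∈ K)
    (hr : r ∈ K) : convexHull ℝ ({p, q, r} : Set Pt) ⊆ K := by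
  apply convexHull_min _ hK
  intro y hy
  simp only [Set.mem_insert_iff, Set.mem_singleton_iff] at hy
  rcases hy with rfl | rfl | rfl <;> assumption

/-- QUAD with `q` on the left and `s` on the right of the line `p r` -/
theorem quad_aux {C K : Set Pt} (hA : Amb C K) {p q r s : Pt} (hp : p ∈ K) (hq : q ∈ K)
    (hr : r ∈ K) (hs : s ∈ K) (hpq : Sees C p q) (hqr : Sees C q r) (hrs : Sees C r s)
    (hsp : Sees C s p) (h1 : 0 < ori p r q) (h2 : ori p r s < 0) : Sees C p r := by
  by_contra hne
  obtain ⟨x, hx, hxC⟩ := Set.nonempty_iff_ne_empty.2 hne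
  -- the two triangles
  have hps : 0 < ori p s r := by rw [ori_swap]; linarith
  set U : Set Pt := {y | (0 < ori p r y ∧ 0 < ori r q y ∧ 0 < ori q p y) ∨
    (ori p r y < 0 ∧ 0 < ori p s y ∧ 0 < ori s r y) ∨
    (0 < ori r q y ∧ 0 < ori q p y ∧ 0 < ori p s y ∧ 0 < ori s r y)} with hU
  have hUo : IsOpen U := by
    have g : ∀ a b : Pt, IsOpen {y : Pt | 0 < ori a b y} := fun a b =>
      isOpen_lt continuous_const (ori_cont a b)
    have g' : ∀ a b : Pt, IsOpen {y : Pt | ori a b y < 0} := fun a b =>
      isOpen_lt (ori_cont a b) continuous_const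
    exact (((g p r).inter ((g r q).inter (g q p)))).union
      ((((g' p r).inter ((g p s).inter (g s r)))).union
        ((g r q).inter ((g q p).inter ((g p s).inter (g s r)))))
  -- U is contained in the union of the triangles
  have hU1 : ∀ y ∈ U, y ∈ convexHull ℝ ({p, r, q} : Set Pt) ∨
      y ∈ convexHull ℝ ({p, s, r} : Set Pt) := by
    intro y hy
    rcases hy with ⟨a, b, c⟩ | ⟨a, b, c⟩ | ⟨a, b, c, d⟩
    · exact Or.inl (tri_mem h1 a.le b.le c.le)
    · right
      refine tri_mem hps b.le c.le ?_
      have : ori r p y = -ori p r y := by unfold ori; ring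
      rw [this]; linarith
    · rcases le_total 0 (ori p r y) with e | e
      · exact Or.inl (tri_mem h1 e a.le b.le)
      · right
        refine tri_mem hps c.le d.le ?_
        have : ori r p y = -ori p r y := by unfold ori; ring
        rw [this]; linarith
  have hUK : U ⊆ K := by
    intro y hy
    rcases hU1 y hy with h | h
    · exact conv_tri hA.conv hp hr hq h
    · exact conv_tri hA.conv hp hs hr h
  set W : Set Pt := (convexHull ℝ ({p, r, q} : Set Pt) ∪ convexHull ℝ ({p, s, r} : Set Pt))ᶜ with hW
  have hWo : IsOpen W := by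
    rw [hW, isOpen_compl_iff]
    have f1 : ({p, r, q} : Set Pt).Finite := Set.toFinite _
    have f2 : ({p, s, r} : Set Pt).Finite := Set.toFinite _
    exact (f1.isCompact_convexHull ℝ).isClosed.union (f2.isCompact_convexHull ℝ).isClosed
  have hCU : ∀ y ∈ C, y ∉ W → y ∈ U := by
    intro y hy hyW
    rw [hW, Set.mem_compl_iff, not_not] at hyW
    rcases hyW with h | h
    · obtain ⟨a, b, c⟩ := ori_nonneg_of_mem h1 h
      have b' : 0 < ori r q y := by
        refine lt_of_le_of_ne b ?_
        intro h0
        have h3 : 0 < ori r q p := by rw [ori_cyc]; exact h1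
        exact seg_of_mem hqr.symm (mem_seg_of h0.symm p c a h3) hy
      have c' : 0 < ori q p y := by
        refine lt_of_le_of_ne c ?_
        intro h0
        have h3 : 0 < ori q p r := by rw [← ori_cyc]; exact h1
        exact seg_of_mem hpq.symm (mem_seg_of h0.symm r a b h3) hy
      rcases a.lt_or_eq with a' | a'
      · exact Or.inl ⟨a', b', c'⟩
      · right; right
        refine ⟨b', c', ?_, ?_⟩
        · -- ori p s y > 0
          have e : ori p s y * ori p r q = ori p r y * ori p s q - ori q p y * ori p r s := by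
            unfold ori; ring
          have : 0 < ori p s y * ori p r q := by rw [e, ← a']; nlinarith
          exact (pos_iff_pos_of_mul_pos this).2 h1
        · have e : ori s r y * ori p r q = -(ori r q y * ori p r s) + ori p r y * ori s r q := by
            unfold ori; ring
          have : 0 < ori s r y * ori p r q := by rw [e, ← a']; nlinarith
          exact (pos_iff_pos_of_mul_pos this).2 h1
    · obtain ⟨b, c, a⟩ := ori_nonneg_of_mem hps h
      have b' : 0 < ori p s y := by
        refine lt_of_le_of_ne b ?_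
        intro h0
        exact seg_of_mem hsp.symm (mem_seg_of h0.symm r c a hps) hy
      have c' : 0 < ori s r y := by
        refine lt_of_le_of_ne c ?_
        intro h0
        have h3 : 0 < ori s r p := by rw [ori_cyc]; exact hps
        exact seg_of_mem hrs.symm (mem_seg_of h0.symm p a b h3) hy
      have ea : ori r p y = -ori p r y := by unfold ori; ring
      rw [ea] at a
      rcases a.lt_or_eq with a' | a'
      · exact Or.inr (Or.inl ⟨by linarith, b', c'⟩)
      · right; right
        have a0 : ori p r y = 0 := by linarith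
        refine ⟨?_, ?_, b', c'⟩
        · have e : ori r q y * ori p r s = -(ori s r y * ori p r q) + ori p r y * ori r q s -
              ori p r y * ori r q s + ori p r y * ori s r q := by
            unfold ori; ring
          have : ori r q y * ori p r s < 0 := by rw [e, a0]; nlinarith
          by_contra hh
          push Not at hh
          nlinarith
        · have e : ori q p y * ori p r s = ori p r y * ori p s q - ori p s y * ori p r q := by
            unfold ori; ring
          have : ori q p y * ori p r s < 0 := by rw [e, a0]; nlinarith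
          by_contra hh
          push Not at hh
          nlinarith
  have hcov : C ⊆ U ∪ W := by
    intro y hy
    by_cases hyW : y ∈ W
    · exact Or.inr hyW
    · exact Or.inl (hCU y hy hyW)
  have hdisj : U ∩ W = ∅ := by
    ext y
    simp only [Set.mem_inter_iff, Set.mem_empty_iff_false, iff_false, not_and]
    intro hy hyW
    exact hyW (hU1 y hy)
  have hxW : x ∉ W := by
    rw [hW, Set.mem_compl_iff, not_not]
    left
    exact segment_subset_convexHull (by simp) (by simp) hx
  have hCO : C ⊆ U := by
    by_contra hnot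
    obtain ⟨y, hyC, hyO⟩ := Set.not_subset.1 hnot
    have hyW : y ∈ W := (hcov hyC).resolve_left hyO
    obtain ⟨z, -, hz⟩ := hA.conn U W hUo hWo hcov ⟨x, hxC, hCU x hxC hxW⟩ ⟨y, hyC, hyW⟩
    rw [hdisj] at hz
    exact hz
  exact hA.nsub (hCO.trans hUK)

theorem quad : QuadStmt := by
  intro C K hA p hp q hq r hr s hs hpq hqr hrs hsp h
  rcases lt_trichotomy (ori p r q) 0 with h1 | h1 | h1
  · have h2 : 0 < ori p r s := by
      by_contra hh
      push Not at hh
      nlinarith
    exact quad_aux hA hp hs hr hq hsp.symm hrs.symm hqr.symm hpq.symm h2 h1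
  · rw [h1, zero_mul] at h
    exact absurd h (lt_irrefl _)
  · have h2 : ori p r s < 0 := by
      by_contra hh
      push Not at hh
      nlinarith
    exact quad_aux hA hp hq hr hs hpq hqr hrs hsp h1 h2

end Pool.Agent.SO.H88
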