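import Pool.Agent.Helper88_SO.Tools

/-!
# Module WEAK
-/

namespace Pool.Agent.SO.H88

/-- witnesses in both directions -/
def W2 {V : Type} (G : SimpleGraph V) (P : V → Pt) (u v : V) : Prop := Wit G P u v ∧ Wit G P v u

theorem W2.symm {V : Type} {G : SimpleGraph V} {P : V → Pt} {u v : V} (h : W2 G P u v) :
    W2 G P v u := ⟨h.2, h.1⟩

section

variable {n m : ℕ} {T : Fin m → Fin 3 → Fin n} {j : Fin m} {gam sg mu : ℝ}
  {S : Fin (n + 2) → ℝ} {Q : Vx n m → Pt}

theorem S_ne (hV : View T j gam sg mu S Q) {k k' : Fin 5} (h : k ≠ k') :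
    S (el T j k) ≠ S (el T j k') := by
  have h1 := hV.S_mid
  have b0 := hV.S_big 0 (by simp)
  have b1 := hV.S_big 1 (by simp)
  have b2 := hV.S_big 2 (by simp)
  have b4 := hV.S_last
  have key : ∀ a b : Fin 5, a < b → S (el T j a) ≠ S (el T j b) := by
    intro a b hab
    rcases h1 with ⟨c1, c2⟩ | ⟨c1, c2⟩
    · fin_cases a <;> fin_cases b <;> simp_all <;> intro e <;> linarith
    · fin_cases a <;> fin_cases b <;> simp_all <;> intro e <;> linarith
  rcases lt_or_gt_of_ne h with h2 | h2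
  · exact key _ _ h2
  · exact (key _ _ h2).symm

theorem gad_cases {g : Vx n m} (h : Gad j g) : (∃ k, g = .pr j k) ∨ (∃ k, g = .hc j k) ∨
    (∃ s, g = .hd j s) ∨ (∃ s t, g = .ho j s t) := by
  cases g with
  | pr j' k => exact Or.inl ⟨k, by rw [show j' = j from h]⟩
  | hc j' k => exact Or.inr (Or.inl ⟨k, by rw [show j' = j from h]⟩)
  | hd j' s => exact Or.inr (Or.inr (Or.inl ⟨s, by rw [show j' = j from h]⟩))
  | ho j' s t => exact Or.inr (Or.inr (Or.inr ⟨s, t, by rw [show j' = j from h]⟩))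
  | top i => exact absurd h id
  | hel i => exact absurd h id
  | jam i s => exact absurd h id
  | hj i s => exact absurd h id

/-- two vertices below the same door -/
theorem gad_gad (hE : ExpStmt) (hcx : HcxStmt) (hdx : HdxStmt) (hox : HoxStmt) (hco : HcoStmt)
    (hdo : HdoStmt) (hoo : HooStmt) (hV : View T j gam sg mu S Q) (g z : Vx n m)
    (hg : Gad j g) (hz : Gad j z) (hne : g ≠ z) (hadj : ¬ (Gr T).Adj g z) : W2 (Gr T) Q g z := by
  have xc := hcx n m T j gam sg mu S Q hV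
  have xd := hdx n m T j gam sg mu S Q hV
  have xo := hox n m T j gam sg mu S Q hV
  have oc := hco n m T j gam sg mu S Q hV
  have od := hdo n m T j gam sg mu S Q hV
  have oo := hoo n m T j gam sg mu S Q hV
  have ec : ∀ k v, OutCone (Gr T) Q (.hc j k) v → W2 (Gr T) Q (.hc j k) v := fun k v h =>
    hE _ _ Q _ _ _ (xc k) h
  have ed : ∀ s v, OutCone (Gr T) Q (.hd j s) v → W2 (Gr T) Q (.hd j s) v := fun k v h =>
    hE _ _ Q _ _ _ (xd k) h
  have eo : ∀ s t v, OutCone (Gr T) Q (.ho j s t) v → W2 (Gr T) Q (.ho j s t) v := fun s t v h =>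
    hE _ _ Q _ _ _ (xo s t) h
  rcases gad_cases hg with ⟨k, rfl⟩ | ⟨k, rfl⟩ | ⟨s, rfl⟩ | ⟨s, t, rfl⟩ <;>
    rcases gad_cases hz with ⟨k', rfl⟩ | ⟨k', rfl⟩ | ⟨s', rfl⟩ | ⟨s', t', rfl⟩
  · exfalso
    apply hadj
    refine ⟨hne, Or.inl ⟨rfl, ?_⟩⟩
    rintro rfl
    exact hne rfl
  · have : k = k' := by
      by_contra h
      exact hadj ⟨by simp, Or.inr ⟨rfl, fun h' => h h'.symm⟩⟩
    subst this
    exact (ec k _ (oc k).1).symm
  · exact absurd ⟨by simp, Or.inr rfl⟩ hadj
  · have h1 : ¬ (k = 1 ∨ k = if t' then 2 else 0) := fun h => hadj ⟨by simp, Or.inr ⟨rfl, h⟩⟩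
    push Not at h1
    exact (eo s' t' _ ((oo s' t').2.1 k h1.1 h1.2)).symm
  · have : k = k' := by
      by_contra h
      exact hadj ⟨by simp, Or.inl ⟨rfl, h⟩⟩
    subst this
    exact ec k _ (oc k).1
  · have hk : k ≠ k' := by rintro rfl; exact hne rfl
    rcases lt_or_gt_of_ne (S_ne hV hk) with h | h
    · exact (ec k' _ ((oc k').2.1 k h)).symm
    · exact ec k _ ((oc k).2.1 k' h)
  · exact ec k _ ((oc k).2.2.1 s')
  · exact ec k _ ((oc k).2.2.2 s' t')
  · exact absurd ⟨by simp, Or.inl rfl⟩ hadj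
  · exact (ec k' _ ((oc k').2.2.1 s)).symm
  · cases s <;> cases s'
    · exact absurd rfl hne
    · exact (ed true _ od.2.1).symm
    · exact ed true _ od.2.1
    · exact absurd rfl hne
  · exact ed s _ (od.2.2 s s' t')
  · have h1 : ¬ (k' = 1 ∨ k' = if t then 2 else 0) := fun h => hadj ⟨by simp, Or.inl ⟨rfl, h⟩⟩
    push Not at h1
    exact eo s t _ ((oo s t).2.1 k' h1.1 h1.2)
  · exact (ec k' _ ((oc k').2.2.2 s t)).symm
  · exact (ed s' _ (od.2.2 s' s t)).symm
  · refine eo s t _ ((oo s t).2.2 s' t' ?_)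
    rintro ⟨rfl, rfl⟩
    exact hne rfl

/-- a vertex below a door and a jamb of the door -/
theorem gad_jam (hE : ExpStmt) (hdx : HdxStmt) (hox : HoxStmt)
    (hdo : HdoStmt) (hoo : HooStmt) (hV : View T j gam sg mu S Q) (g : Vx n m) (s : Bool)
    (hg : Gad j g) (hadj : ¬ (Gr T).Adj g (.jam j s)) : W2 (Gr T) Q g (.jam j s) := by
  have xd := hdx n m T j gam sg mu S Q hV
  have xo := hox n m T j gam sg mu S Q hV
  have od := hdo n m T j gam sg mu S Q hV
  have oo := hoo n m T j gam sg mu S Q hV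
  rcases gad_cases hg with ⟨k, rfl⟩ | ⟨k, rfl⟩ | ⟨s', rfl⟩ | ⟨s', t, rfl⟩
  · exact absurd ⟨by simp, Or.inl rfl⟩ hadj
  · exact absurd ⟨by simp, Or.inl rfl⟩ hadj
  · have : s' = s := by
      by_contra h
      exact hadj ⟨by simp, Or.inl ⟨rfl, h⟩⟩
    subst this
    exact hE _ _ Q _ _ _ (xd s') (od.1 s')
  · have : s' ≠ s := fun h => hadj ⟨by simp, Or.inl ⟨rfl, h⟩⟩
    have : s = !s' := by cases s <;> cases s' <;> simp_all
    subst this
    exact hE _ _ Q _ _ _ (xo s' t) (oo s' t).1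

/-- everything below a door -/
theorem gad_any (hE : ExpStmt) (hRay : RayStmt) (hfree : FreeStmt) (hgo : GoStmt)
    (hcx : HcxStmt) (hdx : HdxStmt) (hox : HoxStmt) (hco : HcoStmt)
    (hdo : HdoStmt) (hoo : HooStmt) (hV : View T j gam sg mu S Q) (g z : Vx n m)
    (hg : Gad j g) (hne : g ≠ z) (hadj : ¬ (Gr T).Adj g z) : W2 (Gr T) Q g z := by
  by_cases hz : Gad j z
  · exact gad_gad hE hcx hdx hox hco hdo hoo hV g z hg hz hne hadj
  · by_cases hj : ∃ s, z = .jam j s
    · obtain ⟨s, rfl⟩ := hj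
      exact gad_jam hE hdx hox hdo hoo hV g s hg hadj
    · push Not at hj
      have hf := hfree n m T j gam sg mu S Q hV
      rcases hgo n m T j gam sg mu S Q hV g z hg hz hj hadj with h | h
      · exact hRay.2.1 _ _ Q _ _ g z hf.1 h
      · exact hRay.2.1 _ _ Q _ _ g z hf.2 h

/-- everything about the helpers of the jambs -/
theorem hj_any (hE : ExpStmt) (hjx : HjxStmt) (hjo : HjoStmt) (hV : View T j gam sg mu S Q)
    (s : Bool) (z : Vx n m) (hz : (∃ i, z = .hel i) ∨ (z = .jam j s) ∨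
      (∃ j' s', j' < j ∧ (z = .jam j' s' ∨ z = .hj j' s')) ∨
      (∃ j' s', j < j' ∧ s = true ∧ z = .jam j' s') ∨ (s = false ∧ z = .hj j true)) :
    W2 (Gr T) Q (.hj j s) z := by
  have x := hjx n m T j gam sg mu S Q hV
  have o := hjo n m T j gam sg mu S Q hV
  have e : OutCone (Gr T) Q (.hj j s) z → W2 (Gr T) Q (.hj j s) z := fun h =>
    hE _ _ Q _ _ _ (x s) h
  rcases hz with ⟨i, rfl⟩ | rfl | ⟨j', s', h, rfl | rfl⟩ | ⟨j', s', h, rfl, rfl⟩ | ⟨rfl, rfl⟩
  · exact e (o.2.2.1 s i)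
  · exact e (o.1 s)
  · exact e (o.2.2.2.1 s j' s' h).1
  · exact e (o.2.2.2.1 s j' s' h).2
  · exact e (o.2.2.2.2 j' s' h)
  · exact e o.2.1

end

theorem weak (hE : ExpStmt) (hRay : RayStmt) (hView : ViewStmt) (hHel : HelStmt)
    (hjx : HjxStmt) (hjo : HjoStmt) (hfree : FreeStmt) (hgo : GoStmt)
    (hcx : HcxStmt) (hdx : HdxStmt) (hox : HoxStmt) (hco : HcoStmt)
    (hdo : HdoStmt) (hoo : HooStmt) : WeakStmt := by
  intro n m T ps hT hG
  have tr : ∀ (j : Fin m) (u v : Vx n m),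
      W2 (Gr T) (fun z => loc ((j.val : ℝ) / m) (wdP n m) (pl T ps z)) u v →
      W2 (Gr T) (pl T ps) u v := fun j u v h =>
    ⟨hRay.2.2 _ _ _ _ _ _ _ h.1, hRay.2.2 _ _ _ _ _ _ _ h.2⟩
  have hgad : ∀ (j : Fin m) (g z : Vx n m), Gad j g → g ≠ z → ¬ (Gr T).Adj g z →
      W2 (Gr T) (pl T ps) g z := fun j g z h1 h2 h3 =>
    tr j g z (gad_any hE hRay hfree hgo hcx hdx hox hco hdo hoo (hView n m T ps hG j) g z h1 h2 h3)
  have hhj := fun (j : Fin m) (s : Bool) (z : Vx n m) hz =>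
    tr j _ z (hj_any hE hjx hjo (hView n m T ps hG j) s z hz)
  have hhel : ∀ (i : Fin (n + 2)) (z : Vx n m), OutCone (Gr T) (pl T ps) (.hel i) z →
      W2 (Gr T) (pl T ps) (.hel i) z := by
    intro i z h
    obtain ⟨i', hx⟩ := (hHel n m T ps hG i).1
    exact hE _ _ _ _ _ _ hx h
  -- pairs without a vertex below a door
  have main : ∀ u v : Vx n m, u ≠ v → ¬ (Gr T).Adj u v → (∀ j, ¬ Gad j u) → (∀ j, ¬ Gad j v) →
      W2 (Gr T) (pl T ps) u v := by
    intro u v hne hadj hu hv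
    cases u <;> cases v
    case top.top i i' =>
      exfalso; apply hadj
      exact ⟨hne, Or.inl (fun h => hne (by rw [h]))⟩
    case top.hel i i' =>
      have : i' = i := by
        by_contra h
        exact hadj ⟨by simp, Or.inr h⟩
      subst this
      exact (hhel _ _ (hHel n m T ps hG i').2.1).symm
    case top.jam => exact absurd ⟨by simp, Or.inl trivial⟩ hadj
    case top.hj i j s => exact absurd ⟨by simp, Or.inr (by cases s <;> trivial)⟩ hadj
    case hel.top i i' =>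
      have : i = i' := by
        by_contra h
        exact hadj ⟨by simp, Or.inl h⟩
      subst this
      exact hhel _ _ (hHel n m T ps hG i).2.1
    case hel.hel i i' =>
      have : i' ≠ i := by rintro rfl; exact hne rfl
      exact hhel _ _ ((hHel n m T ps hG i).2.2 i' this)
    case hel.jam => exact absurd ⟨by simp, Or.inl trivial⟩ hadj
    case hel.hj i j s => exact (hhj j s _ (Or.inl ⟨i, rfl⟩)).symm
    case jam.top => exact absurd ⟨by simp, Or.inr trivial⟩ hadj
    case jam.hel => exact absurd ⟨by simp, Or.inr trivial⟩ hadj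
    case jam.jam j s j' s' =>
      exfalso; apply hadj
      refine ⟨hne, Or.inl ?_⟩
      simp only [adj0]
      by_contra h
      push Not at h
      exact hne (by rw [h.1, h.2])
    case jam.hj j' s' j s =>
      refine (hhj j s _ ?_).symm
      rcases lt_trichotomy j' j with h | h | h
      · exact Or.inr (Or.inr (Or.inl ⟨j', s', h, Or.inl rfl⟩))
      · subst h
        right; left
        cases s <;> cases s'
        · rfl
        · exact absurd ⟨by simp, Or.inr (Or.inl ⟨rfl, rfl⟩)⟩ hadj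
        · exact absurd ⟨by simp, Or.inr ⟨rfl, rfl⟩⟩ hadj
        · rfl
      · cases s
        · exact absurd ⟨by simp, Or.inr (Or.inr h)⟩ hadj
        · exact Or.inr (Or.inr (Or.inr (Or.inl ⟨j', s', h, rfl, rfl⟩)))
    case hj.top j s i => exact absurd ⟨by simp, Or.inl (by cases s <;> trivial)⟩ hadj
    case hj.hel j s i => exact hhj j s _ (Or.inl ⟨i, rfl⟩)
    case hj.jam j s j' s' =>
      refine hhj j s _ ?_
      rcases lt_trichotomy j' j with h | h | h
      · exact Or.inr (Or.inr (Or.inl ⟨j', s', h, Or.inl rfl⟩))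
      · subst h
        right; left
        cases s <;> cases s'
        · rfl
        · exact absurd ⟨by simp, Or.inl (Or.inl ⟨rfl, rfl⟩)⟩ hadj
        · exact absurd ⟨by simp, Or.inl ⟨rfl, rfl⟩⟩ hadj
        · rfl
      · cases s
        · exact absurd ⟨by simp, Or.inl (Or.inr h)⟩ hadj
        · exact Or.inr (Or.inr (Or.inr (Or.inl ⟨j', s', h, rfl, rfl⟩)))
    case hj.hj j s j' s' =>
      rcases lt_trichotomy j' j with h | h | h
      · exact hhj j s _ (Or.inr (Or.inr (Or.inl ⟨j', s', h, Or.inr rfl⟩)))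
      · subst h
        cases s <;> cases s'
        · exact absurd rfl hne
        · exact hhj j' false _ (Or.inr (Or.inr (Or.inr (Or.inr ⟨rfl, rfl⟩))))
        · exact (hhj j' false _ (Or.inr (Or.inr (Or.inr (Or.inr ⟨rfl, rfl⟩))))).symm
        · exact absurd rfl hne
      · exact (hhj j' s' _ (Or.inr (Or.inr (Or.inl ⟨j, s, h, Or.inr rfl⟩)))).symm
    all_goals first
      | exact absurd rfl (hu _)
      | exact absurd rfl (hv _)
  intro u v hne hadj
  by_cases hu : ∃ j, Gad j u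
  · obtain ⟨j, hj⟩ := hu
    exact (hgad j u v hj hne hadj).1
  · by_cases hv : ∃ j, Gad j v
    · obtain ⟨j, hj⟩ := hv
      exact (hgad j v u hj hne.symm (fun h => hadj ((Gr T).adj_comm _ _ |>.1 h))).2
    · push Not at hu hv
      exact (main u v hne hadj hu hv).1

end Pool.Agent.SO.H88
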