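import Pool.Agent.Helper88_SO.Final
import Pool.Agent.Helper88_SO.Tri
import Pool.Agent.Helper88_SO.Outer
import Pool.Agent.Helper88_SO.Sound
import Pool.Agent.Helper88_SO.Weak
import Pool.Agent.Helper88_SO.Hj
import Pool.Agent.Helper88_SO.Free
import Pool.Agent.Helper61_SO.Cp4
import Pool.Agent.Helper61_SO.Door
import Pool.Agent.Helper76_SO.Opp
import Pool.Agent.Helper76_SO.Same
import Pool.Agent.Helper24_SO.Ray
import Pool.Agent.Helper24_SO.View
import Pool.Agent.Helper24_SO.Hel
import Pool.Agent.Helper22_SO.Exp
import Pool.Agent.Helper22_SO.Cones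
import Pool.Agent.Helper82_SO.Weak
import Pool.Agent.Helper82_SO.Kpoly2
import Pool.Agent.Helper92_SO.Pos
import Pool.Agent.Helper92_SO.Kred

/-!
# SINGLE-OBSTACLE is NP-hard
-/

namespace Pool.Agent.SO

open Pool.Agent.Helper32_HCK (DecisionProblem InNP PolyReduces languageProblem)

theorem soundMain : SoundStmt :=
  H88.sound H88.outer (H61.cpw H88.quad) H61.cp4
    (H61.door H61.cp4 (H61.blind (H61.bord (H88.clique H88.tri) H88.quad)))
    (H76.same H88.tri H88.quad (H88.cyc H88.quad))
    (H76.opp H88.quad (H88.cyc H88.quad))
    (H61.help H61.cp4 (H61.blind (H61.bord (H88.clique H88.tri) H88.quad)))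

theorem weakMain : WeakStmt :=
  H88.weak H24.exp H24.ray H24.view H24.hel H88.hjx H88.hjo (H88.free H24.ray) H88.go H22.hcx
    H22.hdx H22.hox H22.hco H22.hdo H22.hoo

/-- The decision problem SINGLE-OBSTACLE: the instances are the finite graphs (on the vertices
`0, …, N - 1`), encoded by `encGraph`, and the yes-instances are those which have a single-obstacle
representation. -/
noncomputable def singleObstacleProblem : DecisionProblem where
  Inst := Σ N : ℕ, SimpleGraph (Fin N)
  Alph := GLetter
  alphFintype := inferInstance
  enc := encGraph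
  enc_injective := H92.enc
  Yes x := HasRep x.2

theorem nphard : ∀ L : Set (List Bool), InNP (languageProblem L) →
    PolyReduces (languageProblem L) singleObstacleProblem :=
  final H92.enc soundMain H88.pos weakMain H82.double H92.kred H82.kpoly

end Pool.Agent.SO
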