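import Pool.Agent.Helper88_SO.Base

/-!
# Statements of the modules of the proof that SINGLE-OBSTACLE is NP-hard
-/

namespace Pool.Agent.SO

open Pool.Agent.Common_CookLevin (CNF encodeCNF)
open Pool.Agent.Helper32_HCK (DecisionProblem InNP PolyReduces languageProblem)

/-! ## Part A: geometry of a representation (soundness) -/

/-- TRI: triangles of mutually visible points do not meet the obstacle. -/
def TriStmt : Prop :=
  ∀ C K, Amb C K → ∀ p ∈ K, ∀ q ∈ K, ∀ r ∈ K, Sees C p q → Sees C q r → Sees C p r →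
    convexHull ℝ {p, q, r} ∩ C = ∅

/-- CLIQUE: the convex hull of a set of mutually visible points does not meet the obstacle. -/
def CliqueStmt : Prop :=
  ∀ C K, Amb C K → ∀ Q ⊆ K, (∀ p ∈ Q, ∀ q ∈ Q, Sees C p q) → convexHull ℝ Q ∩ C = ∅

/-- QUAD: a visible quadrilateral with `q`, `s` on different sides of the line `p r`. -/
def QuadStmt : Prop :=
  ∀ C K, Amb C K → ∀ p ∈ K, ∀ q ∈ K, ∀ r ∈ K, ∀ s ∈ K, Sees C p q → Sees C q r →
    Sees C r s → Sees C s p → ori p r q * ori p r s < 0 → Sees C p r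

/-- OUTER: if two disjoint copies of a graph have a joint representation, then one of the copies
is represented with an obstacle not contained in the convex hull. -/
def OuterStmt : Prop :=
  ∀ (V : Type) [Finite V] [Nonempty V] (G : SimpleGraph V), HasRep (G ⊕g G) →
    ∃ (C : Set Pt) (P : V → Pt), Rep C G P

/-- CYC: induced visible 4-cycles have a crossing pair of opposite edges. -/
def CycStmt : Prop :=
  ∀ (V : Type) (G : SimpleGraph V) (C : Set Pt) (P : V → Pt), Rep C G P →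
    ∀ p q r s, G.Adj p q → G.Adj q r → G.Adj r s → G.Adj s p → p ≠ r → q ≠ s →
      ¬ G.Adj p r → ¬ G.Adj q s →
      Cross (P p) (P q) (P r) (P s) ∨ Cross (P q) (P r) (P s) (P p)

/-- BORD: a vertex blind to some vertex of a clique sees the clique in a linear angular order, and
the visible vertices form an interval of this order. -/
def BordStmt : Prop :=
  ∀ (V : Type) (G : SimpleGraph V) (C : Set Pt) (P : V → Pt), Rep C G P →
    ∀ (Q : Set V), (∀ p ∈ Q, ∀ q ∈ Q, p ≠ q → G.Adj p q) → ∀ b, b ∉ Q →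
      (∃ q ∈ Q, ¬ G.Adj b q) →
      (∀ x ∈ Q, ∀ y ∈ Q, ∀ z ∈ Q, 0 < ori (P b) (P x) (P y) → 0 < ori (P b) (P y) (P z) →
        0 < ori (P b) (P x) (P z)) ∧
      (∀ x ∈ Q, ∀ y ∈ Q, ∀ z ∈ Q, 0 < ori (P b) (P x) (P y) → 0 < ori (P b) (P y) (P z) →
        G.Adj b x → G.Adj b z → G.Adj b y)

/-- CPW: a vertex seeing all vertices of a clique except `w` shows that `w` is not inside a
triangle of vertices of the clique. -/
def CpwStmt : Prop :=
  ∀ (V : Type) (G : SimpleGraph V) (C : Set Pt) (P : V → Pt), Rep C G P →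
    ∀ (Q : Set V), (∀ p ∈ Q, ∀ q ∈ Q, p ≠ q → G.Adj p q) → ∀ b, b ∉ Q → ∀ w ∈ Q,
      ¬ G.Adj b w → (∀ q ∈ Q, q ≠ w → G.Adj b q) → ∀ x ∈ Q, ∀ y ∈ Q, ∀ z ∈ Q,
      ¬ (0 < ori (P x) (P y) (P w) ∧ 0 < ori (P y) (P z) (P w) ∧ 0 < ori (P z) (P x) (P w))

/-- CP4: sets in convex position (pure plane geometry). (a) transitivity, (b) one of the three
pairings of four points crosses. -/
def Cp4Stmt : Prop :=
  ∀ (V : Type) (P : V → Pt), GeneralPosition P → ∀ Q : Set V, CP P Q →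
    (∀ x ∈ Q, ∀ y ∈ Q, ∀ z ∈ Q, ∀ w ∈ Q, 0 < ori (P x) (P y) (P z) → 0 < ori (P x) (P z) (P w) →
      0 < ori (P x) (P y) (P w) ∧ 0 < ori (P y) (P z) (P w)) ∧
    (∀ x ∈ Q, ∀ y ∈ Q, ∀ z ∈ Q, ∀ w ∈ Q, x ≠ y → x ≠ z → x ≠ w → y ≠ z → y ≠ w → z ≠ w →
      Cross (P x) (P y) (P z) (P w) ∨ Cross (P x) (P z) (P y) (P w) ∨
        Cross (P x) (P w) (P y) (P z))

/-- BLIND: a vertex cannot be blind to three vertices of a clique whose chords are all crossed by
chords of visible vertices. -/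
def BlindStmt : Prop :=
  ∀ (V : Type) (G : SimpleGraph V) (C : Set Pt) (P : V → Pt), Rep C G P →
    ∀ (Q : Set V), (∀ p ∈ Q, ∀ q ∈ Q, p ≠ q → G.Adj p q) → ∀ b, b ∉ Q →
      ∀ y : Fin 3 → V, (∀ i, y i ∈ Q ∧ ¬ G.Adj b (y i)) →
      (∀ i k, i ≠ k → ∃ u ∈ Q, ∃ v ∈ Q, G.Adj b u ∧ G.Adj b v ∧
        Cross (P (y i)) (P (y k)) (P u) (P v)) → False

/-- DOOR: the vertices `d1`, `d2` are neighbours on the convex hull of the clique. -/
def DoorStmt : Prop :=
  ∀ (V : Type) (G : SimpleGraph V) (C : Set Pt) (P : V → Pt), Rep C G P →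
    ∀ (d1 d2 : V) (z b : Fin 5 → V), Function.Injective z → d1 ≠ d2 →
      (∀ i, z i ≠ d1 ∧ z i ≠ d2) →
      (∀ p ∈ ({d1, d2} : Set V) ∪ Set.range z, ∀ q ∈ ({d1, d2} : Set V) ∪ Set.range z,
        p ≠ q → G.Adj p q) →
      CP P (({d1, d2} : Set V) ∪ Set.range z) →
      (∀ i, b i ∉ ({d1, d2} : Set V) ∪ Set.range z) →
      (∀ i, G.Adj (b i) d1 ∧ G.Adj (b i) d2 ∧ G.Adj (b i) (z i)) →
      (∀ i k, i ≠ k → ¬ G.Adj (b i) (z k)) →
      ∀ i k, 0 < ori (P d1) (P d2) (P (z i)) * ori (P d1) (P d2) (P (z k))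

/-- SAME: the two families cannot be on the same side of the line through `P d` and `e`. -/
def SameStmt : Prop :=
  ∀ (V : Type) (G : SimpleGraph V) (C : Set Pt) (P : V → Pt), Rep C G P →
    ∀ (d : V) (e : Pt) (x x' : Fin 5 → V),
      (∀ i, G.Adj d (x i)) → (∀ i, G.Adj d (x' i)) →
      (∀ i k, i ≠ k → G.Adj (x i) (x k)) → (∀ i k, i ≠ k → G.Adj (x' i) (x' k)) →
      (∀ i, G.Adj (x i) (x' i)) → (∀ i k, i ≠ k → ¬ G.Adj (x i) (x' k)) →
      (∀ i, 0 < ori (P d) e (P (x i))) → (∀ i, 0 < ori (P d) e (P (x' i))) → False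

/-- OPP: matched pairs on different sides of a line through `P d` are seen in the same angular
order. -/
def OppStmt : Prop :=
  ∀ (V : Type) (G : SimpleGraph V) (C : Set Pt) (P : V → Pt), Rep C G P →
    ∀ (d a b a' b' : V) (e : Pt), G.Adj d a → G.Adj d b → G.Adj d a' → G.Adj d b' →
      G.Adj a b → G.Adj b b' → G.Adj b' a' → G.Adj a' a → ¬ G.Adj a b' → ¬ G.Adj b a' →
      0 < ori (P d) e (P a) → 0 < ori (P d) e (P b) → ori (P d) e (P a') < 0 →
      ori (P d) e (P b') < 0 → 0 < ori (P d) (P a) (P b) * ori (P d) (P a') (P b')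

/-- HELP: the effect of a pair of order helpers. -/
def HelpStmt : Prop :=
  ∀ (V : Type) (G : SimpleGraph V) (C : Set Pt) (P : V → Pt), Rep C G P →
    ∀ (d1 d2 x y z w h1 h2 : V), [d1, d2, x, y, z, w, h1, h2].Nodup →
      (∀ p ∈ ({d1, d2, x, y, z, w} : Set V), ∀ q ∈ ({d1, d2, x, y, z, w} : Set V),
        p ≠ q → G.Adj p q) →
      CP P {d1, d2, x, y, z, w} →
      (∀ p ∈ ({x, y, z, w} : Set V), ∀ q ∈ ({x, y, z, w} : Set V),
        0 < ori (P d1) (P d2) (P p) * ori (P d1) (P d2) (P q)) →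
      G.Adj h1 d1 → G.Adj h1 x → G.Adj h1 y → ¬ G.Adj h1 d2 → ¬ G.Adj h1 z → ¬ G.Adj h1 w →
      G.Adj h2 d2 → G.Adj h2 x → G.Adj h2 y → ¬ G.Adj h2 d1 → ¬ G.Adj h2 z → ¬ G.Adj h2 w →
      ¬ Cross (P x) (P y) (P z) (P w)

/-- SOUND: a representation of the graph gives a solution of the betweenness instance. -/
def SoundStmt : Prop :=
  ∀ (n m : ℕ) (T : Fin m → Fin 3 → Fin n), Distinct3 T → HasRep (Gr T ⊕g Gr T) → Solvable T

/-! ## Part B: the drawing (completeness) -/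

/-- EXP: exposed vertices. -/
def ExpStmt : Prop :=
  ∀ (V : Type) [Finite V] (G : SimpleGraph V) (P : V → Pt) (b n v : V),
    Exposed G P b n → OutCone G P b v → Wit G P b v ∧ Wit G P v b

/-- RAY: certificates for free rays; segments crossing free rays; change of coordinates. -/
def RayStmt : Prop :=
  (∀ (V : Type) (G : SimpleGraph V) (P : V → Pt) (o d : Pt), (∀ x y, G.Adj x y →
    ∃ c, 0 ≤ aff c o ∧ 0 < c.2.1 * d.1 + c.2.2 * d.2 ∧ aff c (P x) ≤ 0 ∧ aff c (P y) ≤ 0) →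
    d ≠ 0 → FreeRay G P o d) ∧
  (∀ (V : Type) (G : SimpleGraph V) (P : V → Pt) (o d : Pt) (g z : V), FreeRay G P o d →
    CrossRay (P g) (P z) o d → Wit G P g z ∧ Wit G P z g) ∧
  (∀ (V : Type) (G : SimpleGraph V) (P : V → Pt) (D wd : ℝ) (u v : V),
    Wit G (fun z => loc D wd (P z)) u v → Wit G P u v)

/-- VIEW: the drawing in the frame of a door. -/
def ViewStmt : Prop :=
  ∀ (n m : ℕ) (T : Fin m → Fin 3 → Fin n) (ps : Fin (n + 2) → ℕ), Good T ps → ∀ j : Fin m,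
    View T j (gamP n) (sgP m) (muP m)
      (fun i => slope ((j.val : ℝ) / m) (wdP n m) ((ps i : ℝ) / (n + 1)))
      (fun z => loc ((j.val : ℝ) / m) (wdP n m) (pl T ps z))

/-- HEL: the helpers of the top vertices. -/
def HelStmt : Prop :=
  ∀ (n m : ℕ) (T : Fin m → Fin 3 → Fin n) (ps : Fin (n + 2) → ℕ), Good T ps →
    ∀ i : Fin (n + 2), (∃ i', Exposed (Gr T) (pl T ps) (.hel i) (.top i')) ∧
      OutCone (Gr T) (pl T ps) (.hel i) (.top i) ∧
      ∀ i', i' ≠ i → OutCone (Gr T) (pl T ps) (.hel i) (.hel i')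

/-- HJX: the helpers of the jambs are exposed. -/
def HjxStmt : Prop :=
  ∀ (n m : ℕ) (T : Fin m → Fin 3 → Fin n) (j : Fin m) (gam sg mu : ℝ) (S : Fin (n + 2) → ℝ)
    (Q : Vx n m → Pt), View T j gam sg mu S Q →
    ∀ s, Exposed (Gr T) Q (.hj j s) (.top (Fin.last (n + 1)))

/-- HJO: cones of the helpers of the jambs. -/
def HjoStmt : Prop :=
  ∀ (n m : ℕ) (T : Fin m → Fin 3 → Fin n) (j : Fin m) (gam sg mu : ℝ) (S : Fin (n + 2) → ℝ)
    (Q : Vx n m → Pt), View T j gam sg mu S Q →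
    (∀ s, OutCone (Gr T) Q (.hj j s) (.jam j s)) ∧
    OutCone (Gr T) Q (.hj j false) (.hj j true) ∧
    (∀ s i, OutCone (Gr T) Q (.hj j s) (.hel i)) ∧
    (∀ s j' s', j' < j → OutCone (Gr T) Q (.hj j s) (.jam j' s') ∧
      OutCone (Gr T) Q (.hj j s) (.hj j' s')) ∧
    (∀ j' s', j < j' → OutCone (Gr T) Q (.hj j true) (.jam j' s'))

/-- FREE: the two rays of a door are free. -/
def FreeStmt : Prop :=
  ∀ (n m : ℕ) (T : Fin m → Fin 3 → Fin n) (j : Fin m) (gam sg mu : ℝ) (S : Fin (n + 2) → ℝ)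
    (Q : Vx n m → Pt), View T j gam sg mu S Q →
    FreeRay (Gr T) Q (-(sg / 100 * gam / 20000 / 2), 0) (-1, -(29 / 100)) ∧
    FreeRay (Gr T) Q (sg / 100 * gam / 20000 / 2, 0) (1, -(29 / 100))

/-- GO: segments from the gadget of a door to the outside cross one of the rays. -/
def GoStmt : Prop :=
  ∀ (n m : ℕ) (T : Fin m → Fin 3 → Fin n) (j : Fin m) (gam sg mu : ℝ) (S : Fin (n + 2) → ℝ)
    (Q : Vx n m → Pt), View T j gam sg mu S Q →
    ∀ g z : Vx n m, Gad j g → ¬ Gad j z → (∀ s, z ≠ .jam j s) → ¬ (Gr T).Adj g z →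
      CrossRay (Q g) (Q z) (-(sg / 100 * gam / 20000 / 2), 0) (-1, -(29 / 100)) ∨
      CrossRay (Q g) (Q z) (sg / 100 * gam / 20000 / 2, 0) (1, -(29 / 100))

/-- HCX: the helpers `hc` are exposed. -/
def HcxStmt : Prop :=
  ∀ (n m : ℕ) (T : Fin m → Fin 3 → Fin n) (j : Fin m) (gam sg mu : ℝ) (S : Fin (n + 2) → ℝ)
    (Q : Vx n m → Pt), View T j gam sg mu S Q →
    ∀ k, Exposed (Gr T) Q (.hc j k) (.jam j false)

/-- HDX: the helpers `hd` are exposed. -/
def HdxStmt : Prop :=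
  ∀ (n m : ℕ) (T : Fin m → Fin 3 → Fin n) (j : Fin m) (gam sg mu : ℝ) (S : Fin (n + 2) → ℝ)
    (Q : Vx n m → Pt), View T j gam sg mu S Q →
    ∀ s, Exposed (Gr T) Q (.hd j s) (.jam j (!s))

/-- HOX: the helpers `ho` are exposed. -/
def HoxStmt : Prop :=
  ∀ (n m : ℕ) (T : Fin m → Fin 3 → Fin n) (j : Fin m) (gam sg mu : ℝ) (S : Fin (n + 2) → ℝ)
    (Q : Vx n m → Pt), View T j gam sg mu S Q →
    ∀ s t, Exposed (Gr T) Q (.ho j s t) (.jam j s)

/-- HCO: cones of the helpers `hc`. -/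
def HcoStmt : Prop :=
  ∀ (n m : ℕ) (T : Fin m → Fin 3 → Fin n) (j : Fin m) (gam sg mu : ℝ) (S : Fin (n + 2) → ℝ)
    (Q : Vx n m → Pt), View T j gam sg mu S Q →
    ∀ k, OutCone (Gr T) Q (.hc j k) (.pr j k) ∧
      (∀ k', S (el T j k') < S (el T j k) → OutCone (Gr T) Q (.hc j k) (.hc j k')) ∧
      (∀ s, OutCone (Gr T) Q (.hc j k) (.hd j s)) ∧
      (∀ s t, OutCone (Gr T) Q (.hc j k) (.ho j s t))

/-- HDO: cones of the helpers `hd`. -/
def HdoStmt : Prop :=
  ∀ (n m : ℕ) (T : Fin m → Fin 3 → Fin n) (j : Fin m) (gam sg mu : ℝ) (S : Fin (n + 2) → ℝ)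
    (Q : Vx n m → Pt), View T j gam sg mu S Q →
    (∀ s, OutCone (Gr T) Q (.hd j s) (.jam j s)) ∧
    OutCone (Gr T) Q (.hd j true) (.hd j false) ∧
    (∀ s s' t, OutCone (Gr T) Q (.hd j s) (.ho j s' t))

/-- HOO: cones of the helpers `ho`. -/
def HooStmt : Prop :=
  ∀ (n m : ℕ) (T : Fin m → Fin 3 → Fin n) (j : Fin m) (gam sg mu : ℝ) (S : Fin (n + 2) → ℝ)
    (Q : Vx n m → Pt), View T j gam sg mu S Q →
    ∀ s t, OutCone (Gr T) Q (.ho j s t) (.jam j (!s)) ∧
      (∀ k, k ≠ 1 → k ≠ kk t → OutCone (Gr T) Q (.ho j s t) (.pr j k)) ∧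
      (∀ s' t', ¬ (s' = s ∧ t' = t) → OutCone (Gr T) Q (.ho j s t) (.ho j s' t'))

/-- WEAK: the drawing is a weak representation. -/
def WeakStmt : Prop :=
  ∀ (n m : ℕ) (T : Fin m → Fin 3 → Fin n) (ps : Fin (n + 2) → ℕ), Distinct3 T → Good T ps →
    WeakRep (Gr T) (pl T ps)

/-! ## Part C: from weak representations to representations -/

/-- POS: solutions give positions; the graph has no isolated vertices. -/
def PosStmt : Prop :=
  (∀ (n m : ℕ) (T : Fin m → Fin 3 → Fin n), Distinct3 T → Solvable T → ∃ ps, Good T ps) ∧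
  (∀ (n m : ℕ) (T : Fin m → Fin 3 → Fin n) (u : Vx n m), ∃ v, (Gr T).Adj u v)

/-- GEN: perturbation to general position. -/
def GenStmt : Prop :=
  ∀ (W : Type) [Finite W] (P : W → Pt) (ε : ℝ), 0 < ε → ∃ R : W → Pt,
    (∀ w, |(R w).1 - (P w).1| < ε ∧ |(R w).2 - (P w).2| < ε) ∧ GeneralPosition R

/-- STAB: weak representations are stable under small perturbations. -/
def StabStmt : Prop :=
  ∀ (V : Type) [Finite V] (G : SimpleGraph V) (P : V → Pt), WeakRep G P → ∃ ε : ℝ, 0 < ε ∧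
    ∀ P' : V → Pt, (∀ v, |(P' v).1 - (P v).1| < ε ∧ |(P' v).2 - (P v).2| < ε) → WeakRep G P'

/-- SUM: weak representations of two disjoint copies. -/
def SumStmt : Prop :=
  ∀ (V : Type) [Finite V] (G : SimpleGraph V) (P : V → Pt), WeakRep G P →
    ∃ P' : V ⊕ V → Pt, WeakRep (G ⊕g G) P'

/-- REAL: weak representations in general position are realized by an obstacle. -/
def RealStmt : Prop :=
  ∀ (V : Type) [Finite V] (G : SimpleGraph V) (P : V → Pt), (∀ u, ∃ v, G.Adj u v) →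
    WeakRep G P → GeneralPosition P → HasRep G

/-- DOUBLE: weak representations of a graph without isolated vertices give representations of two
disjoint copies. -/
def DoubleStmt : Prop :=
  ∀ (V : Type) [Finite V] [Nonempty V] (G : SimpleGraph V) (P : V → Pt),
    (∀ u, ∃ v, G.Adj u v) → WeakRep G P → HasRep (G ⊕g G)

/-! ## Part D: the decision problem -/

/-- ENC: the encoding is injective. -/
def EncStmt : Prop := Function.Injective encGraph

/-- KRED: satisfiability and betweenness. -/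
def KredStmt : Prop :=
  ∀ F : CNF, Distinct3 (instF F) ∧
    (Solvable (instF F) ↔ ∃ v : ℕ → Bool, ∀ C ∈ F, ∃ l ∈ C, v l.1 = l.2)

/-- KPOLY: the reduction is computable in polynomial time. -/
def KpolyStmt : Prop :=
  ∃ f : CNF → Σ N : ℕ, SimpleGraph (Fin N),
    (∀ F, Nonempty ((f F).2 ≃g (Gr (instF F) ⊕g Gr (instF F)))) ∧
    Nonempty (Turing.TM2ComputableInPolyTime encodeCNF encGraph f)

/-- SINGLE-OBSTACLE: does a given finite graph have a single-obstacle representation? -/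
noncomputable def singleObstacle (h : EncStmt) : DecisionProblem where
  Inst := Σ N : ℕ, SimpleGraph (Fin N)
  Alph := GLetter
  alphFintype := inferInstance
  enc := encGraph
  enc_injective := h
  Yes := fun x => HasRep x.2

end Pool.Agent.SO
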